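import Mathlib

set_option autoImplicit false

namespace Pool.Agent.LT

/-- Words in the letters `x` (written `(x, true)`) and `x⁻¹` (written `(x, false)`). -/
abbrev Word (X : Type*) := List (X × Bool)

/-- The end point of the edge with label `l` starting at `v`, when each generator `x`
acts on the vertex set by the permutation `π x`. -/
def step {X V : Type*} (π : X → Equiv.Perm V) (v : V) (l : X × Bool) : V :=
  if l.2 then π l.1 v else (π l.1).symm v

/-- The end point of the edge path with label `w` starting at `v`. -/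
def run {X V : Type*} (π : X → Equiv.Perm V) (v : V) (w : Word X) : V :=
  w.foldl (step π) v

/-- A labelled `2`-complex: vertices `V`; for every `x : X` and every vertex `v` an edge from `v`
to `perm x v`; for every `r ∈ rel` and every vertex `v` a `2`-cell glued along the closed edge
path with label `r` starting at `v`. -/
structure LabComplex (X V : Type*) where
  perm : X → Equiv.Perm V
  rel : Set (Word X)
  closed : ∀ r ∈ rel, ∀ v, run perm v r = v

variable {X V : Type*}

/-- The edge path with label `w` starting at `v` runs through no vertex of `C`. -/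
def Avoid (K : LabComplex X V) (C : Set V) : V → Word X → Prop
  | v, [] => v ∉ C
  | v, l :: w => v ∉ C ∧ Avoid K C (step K.perm v l) w

/-- Elementary homotopies of edge paths starting at `v` in the complement of `C`: removal of a
backtrack and removal of the boundary path of a `2`-cell. -/
inductive HStep (K : LabComplex X V) (C : Set V) (v : V) : Word X → Word X → Prop
  | cancel (w₁ w₂ : Word X) (x : X) (b : Bool)
      (h : Avoid K C v (w₁ ++ (x, b) :: (x, !b) :: w₂)) :
      HStep K C v (w₁ ++ (x, b) :: (x, !b) :: w₂) (w₁ ++ w₂)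
  | cell (w₁ w₂ r : Word X) (hr : r ∈ K.rel) (h : Avoid K C v (w₁ ++ (r ++ w₂))) :
      HStep K C v (w₁ ++ (r ++ w₂)) (w₁ ++ w₂)

/-- Homotopy of edge paths starting at `v` in the complement of `C`. -/
def Homot (K : LabComplex X V) (C : Set V) (v : V) : Word X → Word X → Prop :=
  Relation.EqvGen (HStep K C v)

section basic

variable (K : LabComplex X V) {C : Set V}

lemma run_nil (π : X → Equiv.Perm V) (v : V) : run π v [] = v := rfl

lemma run_cons (π : X → Equiv.Perm V) (v : V) (l : X × Bool) (w : Word X) :
    run π v (l :: w) = run π (step π v l) w := rfl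

lemma run_append (π : X → Equiv.Perm V) (v : V) (w₁ w₂ : Word X) :
    run π v (w₁ ++ w₂) = run π (run π v w₁) w₂ := by
  simp [run, List.foldl_append]

lemma step_step_inv (π : X → Equiv.Perm V) (v : V) (x : X) (b : Bool) :
    step π (step π v (x, b)) (x, !b) = v := by
  cases b <;> simp [step]

lemma invRev_cons (l : X × Bool) (w : Word X) :
    FreeGroup.invRev (l :: w) = FreeGroup.invRev w ++ [(l.1, !l.2)] := by
  simp [FreeGroup.invRev]

lemma invRev_append (w₁ w₂ : Word X) :
    FreeGroup.invRev (w₁ ++ w₂) = FreeGroup.invRev w₂ ++ FreeGroup.invRev w₁ := by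
  simp [FreeGroup.invRev]

lemma invRev_invRev (w : Word X) : FreeGroup.invRev (FreeGroup.invRev w) = w :=
  FreeGroup.invRev_invRev

lemma run_invRev (π : X → Equiv.Perm V) (w : Word X) (v : V) :
    run π (run π v w) (FreeGroup.invRev w) = v := by
  induction w generalizing v with
  | nil => rfl
  | cons l w ih =>
    rw [invRev_cons, run_append, run_cons π v l w, ih]
    exact step_step_inv π v l.1 l.2

lemma run_invRev' (π : X → Equiv.Perm V) (w : Word X) (v : V) :
    run π (run π v (FreeGroup.invRev w)) w = v := by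
  have := run_invRev π (FreeGroup.invRev w) v
  rwa [invRev_invRev] at this

lemma avoid_append (v : V) (w₁ w₂ : Word X) :
    Avoid K C v (w₁ ++ w₂) ↔ Avoid K C v w₁ ∧ Avoid K C (run K.perm v w₁) w₂ := by
  induction w₁ generalizing v with
  | nil =>
    constructor
    · intro h
      refine ⟨?_, h⟩
      cases w₂ with
      | nil => exact h
      | cons l w => exact h.1
    · intro h; exact h.2
  | cons l w ih =>
    simp only [List.cons_append, Avoid, run_cons, ih, and_assoc]

variable {K}

lemma Avoid.start {v : V} {w : Word X} (h : Avoid K C v w) : v ∉ C := by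
  cases w with
  | nil => exact h
  | cons l w => exact h.1

lemma Avoid.fin {v : V} {w : Word X} (h : Avoid K C v w) : run K.perm v w ∉ C := by
  induction w generalizing v with
  | nil => exact h
  | cons l w ih => exact ih h.2

lemma Avoid.append {v : V} {w₁ w₂ : Word X} (h₁ : Avoid K C v w₁)
    (h₂ : Avoid K C (run K.perm v w₁) w₂) : Avoid K C v (w₁ ++ w₂) :=
  (avoid_append K v w₁ w₂).2 ⟨h₁, h₂⟩

lemma Avoid.left {v : V} {w₁ w₂ : Word X} (h : Avoid K C v (w₁ ++ w₂)) : Avoid K C v w₁ :=
  ((avoid_append K v w₁ w₂).1 h).1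

lemma Avoid.right {v : V} {w₁ w₂ : Word X} (h : Avoid K C v (w₁ ++ w₂)) :
    Avoid K C (run K.perm v w₁) w₂ :=
  ((avoid_append K v w₁ w₂).1 h).2

lemma Avoid.mono {C' : Set V} (hC : C ⊆ C') {v : V} {w : Word X} (h : Avoid K C' v w) :
    Avoid K C v w := by
  induction w generalizing v with
  | nil => exact fun hv => h (hC hv)
  | cons l w ih => exact ⟨fun hv => h.1 (hC hv), ih h.2⟩

lemma Avoid.inv {v : V} {w : Word X} (h : Avoid K C v w) :
    Avoid K C (run K.perm v w) (FreeGroup.invRev w) := by
  induction w generalizing v with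
  | nil => exact h
  | cons l w ih =>
    rw [invRev_cons, run_cons]
    refine (ih h.2).append ?_
    rw [run_invRev]
    refine ⟨h.2.start, ?_⟩
    rw [step_step_inv K.perm v l.1 l.2]
    exact h.1

lemma Homot.refl (v : V) (w : Word X) : Homot K C v w w := Relation.EqvGen.refl _

lemma Homot.symm {v : V} {w w' : Word X} (h : Homot K C v w w') : Homot K C v w' w :=
  Relation.EqvGen.symm _ _ h

lemma Homot.trans {v : V} {w w' w'' : Word X} (h : Homot K C v w w') (h' : Homot K C v w' w'') :
    Homot K C v w w'' := Relation.EqvGen.trans _ _ _ h h'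

lemma HStep.run_eq {v : V} {w w' : Word X} (h : HStep K C v w w') :
    run K.perm v w = run K.perm v w' := by
  cases h with
  | cancel w₁ w₂ x b h =>
    rw [run_append, run_append, run_cons, run_cons, step_step_inv]
  | cell w₁ w₂ r hr h =>
    rw [run_append, run_append, run_append, K.closed r hr]

lemma Homot.run_eq {v : V} {w w' : Word X} (h : Homot K C v w w') :
    run K.perm v w = run K.perm v w' := by
  induction h with
  | rel _ _ h => exact h.run_eq
  | refl => rfl
  | symm _ _ _ ih => exact ih.symm
  | trans _ _ _ _ _ ih1 ih2 => exact ih1.trans ih2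

lemma HStep.avoid {v : V} {w w' : Word X} (h : HStep K C v w w') : Avoid K C v w := by
  cases h with
  | cancel w₁ w₂ x b h => exact h
  | cell w₁ w₂ r hr h => exact h

lemma HStep.avoid' {v : V} {w w' : Word X} (h : HStep K C v w w') : Avoid K C v w' := by
  cases h with
  | cancel w₁ w₂ x b h =>
    refine h.left.append ?_
    have := h.right.2.2
    rwa [step_step_inv] at this
  | cell w₁ w₂ r hr h =>
    refine h.left.append ?_
    have := h.right.right
    rwa [K.closed r hr] at this

lemma Homot.avoid_iff {v : V} {w w' : Word X} (h : Homot K C v w w') :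
    Avoid K C v w ↔ Avoid K C v w' := by
  induction h with
  | rel _ _ h => exact ⟨fun _ => h.avoid', fun _ => h.avoid⟩
  | refl => rfl
  | symm _ _ _ ih => exact ih.symm
  | trans _ _ _ _ _ ih1 ih2 => exact ih1.trans ih2

lemma HStep.mono {C' : Set V} (hC : C ⊆ C') {v : V} {w w' : Word X} (h : HStep K C' v w w') :
    HStep K C v w w' := by
  cases h with
  | cancel w₁ w₂ x b h => exact HStep.cancel _ _ _ _ (h.mono hC)
  | cell w₁ w₂ r hr h => exact HStep.cell _ _ _ hr (h.mono hC)

lemma Homot.mono {C' : Set V} (hC : C ⊆ C') {v : V} {w w' : Word X} (h : Homot K C' v w w') :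
    Homot K C v w w' := by
  induction h with
  | rel _ _ h => exact Relation.EqvGen.rel _ _ (h.mono hC)
  | refl => exact Homot.refl _ _
  | symm _ _ _ ih => exact ih.symm
  | trans _ _ _ _ _ ih1 ih2 => exact ih1.trans ih2

lemma HStep.append_right {v : V} {w w' : Word X} (h : HStep K C v w w') (u : Word X)
    (hu : Avoid K C (run K.perm v w) u) : HStep K C v (w ++ u) (w' ++ u) := by
  cases h with
  | cancel w₁ w₂ x b h =>
    have h2 := h.append hu
    simp only [List.append_assoc, List.cons_append] at h2 ⊢
    exact HStep.cancel _ _ _ _ h2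
  | cell w₁ w₂ r hr h =>
    have h2 := h.append hu
    simp only [List.append_assoc] at h2 ⊢
    exact HStep.cell _ _ _ hr h2

lemma Homot.append_right {v : V} {w w' : Word X} (h : Homot K C v w w') (u : Word X)
    (hu : Avoid K C (run K.perm v w) u) : Homot K C v (w ++ u) (w' ++ u) := by
  induction h with
  | rel _ _ h => exact Relation.EqvGen.rel _ _ (h.append_right u hu)
  | refl => exact Homot.refl _ _
  | symm _ _ h ih =>
    have := Homot.run_eq h
    rw [← this] at hu
    exact (ih hu).symm
  | trans _ _ _ h _ ih1 ih2 =>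
    have := Homot.run_eq h
    exact (ih1 hu).trans (ih2 (this ▸ hu))

lemma HStep.append_left {v : V} {w w' : Word X} (u : Word X) (hu : Avoid K C v u)
    (h : HStep K C (run K.perm v u) w w') : HStep K C v (u ++ w) (u ++ w') := by
  cases h with
  | cancel w₁ w₂ x b h =>
    have h2 := hu.append h
    rw [← List.append_assoc] at h2 ⊢
    rw [← List.append_assoc]
    exact HStep.cancel _ _ _ _ h2
  | cell w₁ w₂ r hr h =>
    have h2 := hu.append h
    rw [← List.append_assoc u w₁] at h2
    rw [← List.append_assoc u w₁, ← List.append_assoc u w₁]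
    exact HStep.cell _ _ _ hr h2

lemma Homot.append_left {v : V} {w w' : Word X} (u : Word X) (hu : Avoid K C v u)
    (h : Homot K C (run K.perm v u) w w') : Homot K C v (u ++ w) (u ++ w') := by
  induction h with
  | rel _ _ h => exact Relation.EqvGen.rel _ _ (HStep.append_left u hu h)
  | refl => exact Homot.refl _ _
  | symm _ _ _ ih => exact ih.symm
  | trans _ _ _ _ _ ih1 ih2 => exact ih1.trans ih2

lemma Homot.append {v : V} {w₁ w₁' w₂ w₂' : Word X} (h₁ : Homot K C v w₁ w₁')
    (h₂ : Homot K C (run K.perm v w₁) w₂ w₂') (ha : Avoid K C v w₁)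
    (hb : Avoid K C (run K.perm v w₁) w₂) :
    Homot K C v (w₁ ++ w₂) (w₁' ++ w₂') := by
  refine (h₁.append_right w₂ hb).trans (Homot.append_left w₁' (h₁.avoid_iff.1 ha) ?_)
  rwa [← h₁.run_eq]

lemma Homot.inv_cancel {v : V} {w : Word X} (h : Avoid K C v w) :
    Homot K C v (w ++ FreeGroup.invRev w) [] := by
  induction w generalizing v with
  | nil => exact Homot.refl _ _
  | cons l w ih =>
    have h1 := ih h.2
    have h2 : Homot K C v ([l] ++ ((w ++ FreeGroup.invRev w) ++ [(l.1, !l.2)]))
        ([l] ++ ([] ++ [(l.1, !l.2)])) := by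
      refine Homot.append_left [l] ⟨h.1, h.2.start⟩ ?_
      refine Homot.append_right h1 _ ?_
      rw [run_append, run_invRev]
      change step K.perm v l ∉ C ∧ step K.perm (step K.perm v l) (l.1, !l.2) ∉ C
      refine ⟨h.2.start, ?_⟩
      rw [step_step_inv K.perm v l.1 l.2]
      exact h.1
    have h3 : Homot K C v ([l] ++ ([] ++ [(l.1, !l.2)])) [] := by
      refine Relation.EqvGen.rel _ _ ?_
      refine HStep.cancel (K := K) (C := C) (v := v) [] [] l.1 l.2 ?_
      refine ⟨h.1, h.2.start, ?_⟩
      change step K.perm (step K.perm v l) (l.1, !l.2) ∉ C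
      rw [step_step_inv K.perm v l.1 l.2]
      exact h.1
    rw [invRev_cons]
    have h4 := h2.trans h3
    simpa using h4

lemma Homot.cancel_inv {v : V} {w : Word X} (h : Avoid K C v w) :
    Homot K C (run K.perm v w) (FreeGroup.invRev w ++ w) [] := by
  have := Homot.inv_cancel h.inv
  rwa [invRev_invRev] at this

lemma Homot.inv {v : V} {w w' : Word X} (h : Homot K C v w w') (ha : Avoid K C v w) :
    Homot K C (run K.perm v w) (FreeGroup.invRev w) (FreeGroup.invRev w') := by
  have ha' := h.avoid_iff.1 ha
  have hr := h.run_eq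
  -- invRev w ~ invRev w ++ (w' ++ invRev w')
  have h1 : Homot K C (run K.perm v w) (FreeGroup.invRev w ++ (w' ++ FreeGroup.invRev w'))
      (FreeGroup.invRev w ++ []) := by
    refine Homot.append_left _ ha.inv ?_
    rw [run_invRev]
    exact Homot.inv_cancel ha'
  have h2 : Homot K C (run K.perm v w) ((FreeGroup.invRev w ++ w) ++ FreeGroup.invRev w')
      ([] ++ FreeGroup.invRev w') := by
    refine Homot.append_right (Homot.cancel_inv ha) _ ?_
    rw [run_append, run_invRev, hr]
    exact ha'.inv
  have h3 : Homot K C (run K.perm v w) (FreeGroup.invRev w ++ (w ++ FreeGroup.invRev w'))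
      (FreeGroup.invRev w ++ (w' ++ FreeGroup.invRev w')) := by
    refine Homot.append_left _ ha.inv ?_
    rw [run_invRev]
    refine Homot.append_right h _ ?_
    rw [hr]
    exact ha'.inv
  rw [List.append_nil] at h1
  rw [List.nil_append, List.append_assoc] at h2
  exact (h1.symm.trans h3.symm).trans h2

lemma Homot.of_cell {v : V} {r : Word X} (hr : r ∈ K.rel) (h : Avoid K C v r) :
    Homot K C v r [] := by
  have := HStep.cell (K := K) (C := C) (v := v) [] [] r hr (by simpa using h)
  simp only [List.append_nil, List.nil_append] at this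
  exact Relation.EqvGen.rel _ _ this

lemma Homot.of_rel_append {v : V} {a b : Word X} (hr : a ++ FreeGroup.invRev b ∈ K.rel)
    (ha : Avoid K C v a) (hb : Avoid K C v b) : Homot K C v a b := by
  have hcl := K.closed _ hr v
  rw [run_append] at hcl
  have hab : run K.perm v a = run K.perm v b := by
    have := run_invRev' K.perm b (run K.perm v a)
    rw [hcl] at this
    exact this.symm
  have h0 : Avoid K C v (a ++ FreeGroup.invRev b) := by
    refine ha.append ?_
    rw [hab]; exact hb.inv
  have h1 : Homot K C v (a ++ (FreeGroup.invRev b ++ b)) (a ++ []) := by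
    refine Homot.append_left _ ha ?_
    rw [hab]
    exact Homot.cancel_inv hb
  have h2 : Homot K C v ((a ++ FreeGroup.invRev b) ++ b) ([] ++ b) := by
    refine Homot.append_right (Homot.of_cell hr h0) _ ?_
    rw [run_append, hcl]
    exact hb
  rw [List.append_nil] at h1
  rw [List.nil_append, List.append_assoc] at h2
  exact h1.symm.trans h2

end basic

/-! ### The edge path group of the complement -/

/-- Closed edge paths at `v` in the complement of `C`. -/
def Loop (K : LabComplex X V) (C : Set V) (v : V) : Type _ :=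
  {w : Word X // Avoid K C v w ∧ run K.perm v w = v}

/-- Homotopy of closed edge paths. -/
def loopSetoid (K : LabComplex X V) (C : Set V) (v : V) : Setoid (Loop K C v) where
  r a b := Homot K C v a.1 b.1
  iseqv := ⟨fun _ => Homot.refl _ _, fun h => h.symm, fun h h' => h.trans h'⟩

/-- The edge path group at `v` of the complement of `C`: closed edge paths at `v` which do not
meet `C`, up to homotopy in the complement of `C`. -/
def Pi1 (K : LabComplex X V) (C : Set V) (v : {v : V // v ∉ C}) : Type _ :=
  Quotient (loopSetoid K C v.1)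

instance (K : LabComplex X V) (C : Set V) (v : {v : V // v ∉ C}) : Group (Pi1 K C v) where
  mul := Quotient.map₂
    (fun a b => ⟨a.1 ++ b.1, a.2.1.append (a.2.2.symm ▸ b.2.1),
      by rw [run_append, a.2.2, b.2.2]⟩)
    (fun a a' h b b' h' => Homot.append (v := v.1) h (by rw [a.2.2]; exact h') a.2.1
      (by rw [a.2.2]; exact b.2.1))
  one := Quotient.mk _ ⟨[], v.2, rfl⟩
  inv := Quotient.map
    (fun a => ⟨FreeGroup.invRev a.1, by have := a.2.1.inv; rwa [a.2.2] at this,
      by have := run_invRev K.perm a.1 v.1; rwa [a.2.2] at this⟩)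
    (fun a a' h => by
      have := Homot.inv (v := v.1) h a.2.1
      rwa [a.2.2] at this)
  mul_assoc := by
    rintro ⟨a⟩ ⟨b⟩ ⟨c⟩
    refine Quotient.sound ?_
    change Homot K C v.1 ((a.1 ++ b.1) ++ c.1) (a.1 ++ (b.1 ++ c.1))
    rw [List.append_assoc]
    exact Homot.refl _ _
  one_mul := by
    rintro ⟨a⟩
    refine Quotient.sound ?_
    exact Homot.refl _ _
  mul_one := by
    rintro ⟨a⟩
    refine Quotient.sound ?_
    change Homot K C v.1 (a.1 ++ []) a.1
    rw [List.append_nil]
    exact Homot.refl _ _
  inv_mul_cancel := by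
    rintro ⟨a⟩
    refine Quotient.sound ?_
    change Homot K C v.1 (FreeGroup.invRev a.1 ++ a.1) []
    have := Homot.cancel_inv a.2.1
    rwa [a.2.2] at this

/-- The class of a closed edge path. -/
def Pi1.mk {K : LabComplex X V} {C : Set V} {v : {v : V // v ∉ C}} (w : Word X)
    (h : Avoid K C v.1 w) (h' : run K.perm v.1 w = v.1) : Pi1 K C v :=
  Quotient.mk (loopSetoid K C v.1) ⟨w, h, h'⟩

lemma Pi1.mk_eq {K : LabComplex X V} {C : Set V} {v : {v : V // v ∉ C}} {w w' : Word X}
    {h : Avoid K C v.1 w} {h' : run K.perm v.1 w = v.1} {k : Avoid K C v.1 w'}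
    {k' : run K.perm v.1 w' = v.1} (e : Homot K C v.1 w w') :
    (Pi1.mk w h h' : Pi1 K C v) = Pi1.mk w' k k' := Quotient.sound e

lemma Pi1.exact {K : LabComplex X V} {C : Set V} {v : {v : V // v ∉ C}} {w w' : Word X}
    {h : Avoid K C v.1 w} {h' : run K.perm v.1 w = v.1} {k : Avoid K C v.1 w'}
    {k' : run K.perm v.1 w' = v.1} (e : (Pi1.mk w h h' : Pi1 K C v) = Pi1.mk w' k k') :
    Homot K C v.1 w w' := Quotient.exact e

lemma Pi1.exists_rep {K : LabComplex X V} {C : Set V} {v : {v : V // v ∉ C}} (g : Pi1 K C v) :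
    ∃ w h h', g = Pi1.mk w h h' := by
  obtain ⟨⟨w, h, h'⟩⟩ := g
  exact ⟨w, h, h', rfl⟩

lemma Pi1.mk_mul {K : LabComplex X V} {C : Set V} {v : {v : V // v ∉ C}} {w w' : Word X}
    {h : Avoid K C v.1 w} {h' : run K.perm v.1 w = v.1} {k : Avoid K C v.1 w'}
    {k' : run K.perm v.1 w' = v.1} :
    (Pi1.mk w h h' : Pi1 K C v) * Pi1.mk w' k k' =
      Pi1.mk (w ++ w') (h.append (h'.symm ▸ k)) (by rw [run_append, h', k']) := rfl

lemma Pi1.mk_inv {K : LabComplex X V} {C : Set V} {v : {v : V // v ∉ C}} {w : Word X}
    {h : Avoid K C v.1 w} {h' : run K.perm v.1 w = v.1} :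
    (Pi1.mk w h h' : Pi1 K C v)⁻¹ =
      Pi1.mk (FreeGroup.invRev w) (by have := h.inv; rwa [h'] at this)
        (by have := run_invRev K.perm w v.1; rwa [h'] at this) := rfl

lemma Pi1.one_eq {K : LabComplex X V} {C : Set V} {v : {v : V // v ∉ C}} :
    (1 : Pi1 K C v) = Pi1.mk [] v.2 rfl := rfl

end Pool.Agent.LT
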