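import Pool.Agent.LT.Piece

set_option autoImplicit false

namespace Pool.Agent.LT

theorem ExtData.core {X Y V W : Type*} [Finite X] [Finite Y] (E : ExtData X Y V W)
    (hconnQ : ∀ w w', ∃ b, run E.KQ.perm w b = w')
    (H1 : ∀ C : Set V, C.Finite → ∀ v ∉ C, FGat E.KN C v)
    (H2 : ∀ D : Set W, D.Finite → ∀ w ∉ D, FGat E.KQ D w)
    (C : Set V) (hC : C.Finite) (v : V) (hv : v ∉ C) : FGat E.KA C v := by
  classical
  obtain ⟨D, hDdef⟩ : ∃ D : Set W, D = E.p '' C := ⟨_, rfl⟩
  have hD : D.Finite := by rw [hDdef]; exact hC.image _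
  have hCD : C ⊆ E.p ⁻¹' D := by
    intro u hu; rw [Set.mem_preimage, hDdef]; exact ⟨u, hu, rfl⟩
  have hnotC : ∀ u, E.p u ∉ D → u ∉ C := fun u hu h => hu (hCD h)
  choose a ha using E.p_surj
  have hcex : ∀ w b, ∃ c : Word X,
      run E.KN.perm (run E.KA.perm (a w) (emb Sum.inr b)) c = a (run E.KQ.perm w b) := by
    intro w b
    apply E.fibre
    rw [E.p_run_inr, ha, ha]
  choose c hc using hcex
  obtain ⟨hubQ, κQ, hκQ, hhubQ⟩ := exists_hub E.KQ D
  obtain ⟨hubN, κN, hκN, hhubN⟩ := exists_hub E.KN C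
  have heex : ∀ u, ∃ e : Word X, E.p u ∉ D →
      run E.KN.perm (run E.KA.perm (a (hubQ (E.p u))) (emb Sum.inr (κQ (E.p u)))) e = u := by
    intro u
    by_cases hu : E.p u ∈ D
    · exact ⟨[], fun h => absurd hu h⟩
    · obtain ⟨e, he⟩ := E.fibre (run E.KA.perm (a (hubQ (E.p u))) (emb Sum.inr (κQ (E.p u)))) u
        (by rw [E.p_run_inr, ha, (hκQ _ hu).2])
      exact ⟨e, fun _ => he⟩
  choose e he using heex
  have hMQ : ∀ w : W, ∃ M : Set (W × Word Y), M.Finite ∧ (w ∉ D →
      ∀ b, Avoid E.KQ D w b → run E.KQ.perm w b = w → InGen E.KQ D M w b) := by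
    intro w
    by_cases hw : w ∈ D
    · exact ⟨∅, Set.finite_empty, fun h => absurd hw h⟩
    · obtain ⟨M, h1, h2⟩ := H2 D hD w hw
      exact ⟨M, h1, fun _ => h2⟩
  choose MQ hMQfin hMQ using hMQ
  have hMN : ∀ u : V, ∃ M : Set (V × Word X), M.Finite ∧ (u ∉ C →
      ∀ b, Avoid E.KN C u b → run E.KN.perm u b = u → InGen E.KN C M u b) := by
    intro w
    by_cases hw : w ∈ C
    · exact ⟨∅, Set.finite_empty, fun h => absurd hw h⟩
    · obtain ⟨M, h1, h2⟩ := H1 C hC w hw
      exact ⟨M, h1, fun _ => h2⟩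
  choose MN hMNfin hMN using hMN
  -- finitely many hubs
  have hHQ : (hubQ '' Dᶜ).Finite := by
    by_cases hne : (Dᶜ : Set W).Nonempty
    · obtain ⟨w₀, hw₀⟩ := hne
      obtain ⟨T, hT, hTC, hTr⟩ := exists_finite_reps E.KQ D hD w₀
      refine (hT.image hubQ).subset ?_
      rintro _ ⟨u, hu, rfl⟩
      obtain ⟨w, hw⟩ := hconnQ w₀ u
      obtain ⟨t, ht, w', hA, hr⟩ := hTr w (by rw [hw]; exact hu)
      refine ⟨t, ht, ?_⟩
      have := hhubQ t w' hA
      rw [hr, hw] at this
      exact this.symm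
    · rw [Set.not_nonempty_iff_eq_empty] at hne
      rw [hne, Set.image_empty]
      exact Set.finite_empty
  have hHN : (hubN '' {u | E.p u ∈ D ∧ u ∉ C}).Finite := by
    have hT : ∀ d : W, ∃ T : Set V, T.Finite ∧ ∀ w, run E.KN.perm (a d) w ∉ C →
        ∃ t ∈ T, ∃ w', Avoid E.KN C t w' ∧ run E.KN.perm t w' = run E.KN.perm (a d) w := by
      intro d
      obtain ⟨T, hT, _, hTr⟩ := exists_finite_reps E.KN C hC (a d)
      exact ⟨T, hT, hTr⟩
    choose T hT hTr using hT
    refine ((hD.biUnion fun d _ => hT d).image hubN).subset ?_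
    rintro _ ⟨u, ⟨hu1, hu2⟩, rfl⟩
    obtain ⟨w, hw⟩ := E.fibre (a (E.p u)) u (ha _)
    obtain ⟨t, ht, w', hA, hr⟩ := hTr (E.p u) w (by rw [hw]; exact hu2)
    refine ⟨t, Set.mem_biUnion hu1 ht, ?_⟩
    have := hhubN t w' hA
    rw [hr, hw] at this
    exact this.symm
  -- bad sets for crossing edges
  have hTex : ∀ t : Y × Bool, ∃ B T : Set V, B.Finite ∧ T.Finite ∧
      (∀ u ∉ B, Avoid E.KA C u [(Sum.inr t.1, t.2)] ∧
        ∀ s, Avoid E.KA C u ([(Sum.inr t.1, t.2)] ++ emb Sum.inl (E.n s t))) ∧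
      (∀ x ∈ T, x ∉ B) ∧
      (∀ u, E.p u ∈ D → u ∉ B → ∃ x ∈ T, ∃ w', Avoid E.KN B x w' ∧ run E.KN.perm x w' = u) := by
    intro t
    obtain ⟨Φ, hΦ⟩ : ∃ Φ : Set (Word (X ⊕ Y)), Φ = {p | p <+: [(Sum.inr t.1, t.2)]} ∪
        {p | ∃ s, p <+: [(Sum.inr t.1, t.2)] ++ emb Sum.inl (E.n s t)} := ⟨_, rfl⟩
    have hΦfin : Φ.Finite := by
      rw [hΦ]
      exact (finite_pre _).union
        (finite_prefixes (fun s => [(Sum.inr t.1, t.2)] ++ emb Sum.inl (E.n s t)))
    have hBfin := finite_bad E.KA.perm Φ hΦfin C hC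
    have hT : ∀ d : W, ∃ T : Set V, T.Finite ∧
        (∀ x ∈ T, x ∉ {u : V | ∃ p ∈ Φ, run E.KA.perm u p ∈ C}) ∧
        ∀ w, run E.KN.perm (a d) w ∉ {u : V | ∃ p ∈ Φ, run E.KA.perm u p ∈ C} →
        ∃ x ∈ T, ∃ w', Avoid E.KN {u : V | ∃ p ∈ Φ, run E.KA.perm u p ∈ C} x w' ∧
          run E.KN.perm x w' = run E.KN.perm (a d) w := by
      intro d
      obtain ⟨T, hT, hTC, hTr⟩ := exists_finite_reps E.KN _ hBfin (a d)
      exact ⟨T, hT, hTC, hTr⟩
    choose T hT hTC hTr using hT
    refine ⟨{u : V | ∃ p ∈ Φ, run E.KA.perm u p ∈ C}, ⋃ d ∈ D, T d, hBfin,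
      hD.biUnion fun d _ => hT d, ?_, ?_, ?_⟩
    · intro u hu
      constructor
      · rw [avoid_iff]
        intro p hp h
        exact hu ⟨p, by rw [hΦ]; exact Or.inl hp, h⟩
      · intro s
        rw [avoid_iff]
        intro p hp h
        exact hu ⟨p, by rw [hΦ]; exact Or.inr ⟨s, hp⟩, h⟩
    · intro x hx
      simp only [Set.mem_iUnion] at hx
      obtain ⟨d, _, hx⟩ := hx
      exact hTC d x hx
    · intro u hu1 hu2
      obtain ⟨w, hw⟩ := E.fibre (a (E.p u)) u (ha _)
      obtain ⟨t, ht, w', hA, hr⟩ := hTr (E.p u) w (by rw [hw]; exact hu2)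
      exact ⟨t, Set.mem_biUnion hu1 ht, w', hA, by rw [hr, hw]⟩
  choose B T hBfin hTfin hBgood hTB hTr using hTex
  -- hubs and connecting paths
  let hub : V → V := fun u => if E.p u ∈ D then hubN u else a (hubQ (E.p u))
  let κ : V → Word (X ⊕ Y) := fun u => if E.p u ∈ D then emb Sum.inl (κN u)
    else emb Sum.inr (κQ (E.p u)) ++ emb Sum.inl (e u)
  have hκD : ∀ u, E.p u ∉ D → Avoid E.KA (E.p ⁻¹' D) (hub u) (κ u) ∧
      run E.KA.perm (hub u) (κ u) = u := by
    intro u hu
    simp only [hub, κ, if_neg hu]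
    have h1 : Avoid E.KA (E.p ⁻¹' D) (a (hubQ (E.p u))) (emb Sum.inr (κQ (E.p u))) :=
      E.avoid_inr (by rw [ha]; exact (hκQ _ hu).1)
    refine ⟨h1.append ?_, ?_⟩
    · rw [E.avoid_inl]
      exact E.avoid_inl_fibre h1.fin _
    · rw [run_append, E.run_inl, he u hu]
  have hκ : ∀ u ∉ C, Avoid E.KA C (hub u) (κ u) ∧ run E.KA.perm (hub u) (κ u) = u := by
    intro u hu
    by_cases hu2 : E.p u ∈ D
    · simp only [hub, κ, if_pos hu2]
      rw [E.avoid_inl, E.run_inl]
      exact hκN u hu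
    · exact ⟨(hκD u hu2).1.mono hCD, (hκD u hu2).2⟩
  let pieceM : W → Set (V × Word (X ⊕ Y)) := fun w =>
    ((fun m : W × Word Y => (a m.1, emb Sum.inr m.2 ++ emb Sum.inl (c m.1 m.2))) '' MQ w) ∪
      ((fun m : V × Word X => (m.1, emb Sum.inl m.2)) '' MN (a w))
  have hpieceM : ∀ w, (pieceM w).Finite := fun w =>
    ((hMQfin w).image _).union ((hMNfin _).image _)
  let M1 : Set (V × Word (X ⊕ Y)) := ⋃ w ∈ hubQ '' Dᶜ, pieceM w
  let M2 : Set (V × Word (X ⊕ Y)) := ⋃ h ∈ hubN '' {u | E.p u ∈ D ∧ u ∉ C},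
    ((fun m : V × Word X => (m.1, emb Sum.inl m.2)) '' MN h)
  let M3 : Set (V × Word (X ⊕ Y)) := ⋃ t : Y × Bool,
    (fun u => (hub u, κ u ++ ([(Sum.inr t.1, t.2)] ++
      FreeGroup.invRev (κ (step E.KA.perm u (Sum.inr t.1, t.2)))))) '' (B t ∪ T t)
  have hM1 : M1.Finite := hHQ.biUnion fun w _ => hpieceM w
  have hM2 : M2.Finite := hHN.biUnion fun h _ => (hMNfin h).image _
  have hM3 : M3.Finite := Set.finite_iUnion fun t => ((hBfin t).union (hTfin t)).image _
  -- edges inside pieces over the complement of `D`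
  have GP : ∀ u l, E.p u ∉ D → E.p (step E.KA.perm u l) ∉ D →
      Good E.KA C (M1 ∪ M2 ∪ M3) hub κ u [l] := by
    intro u l hu hl
    have hAl : Avoid E.KA (E.p ⁻¹' D) u [l] := ⟨hu, hl⟩
    refine ⟨hAl.mono hCD, ?_⟩
    change InGen E.KA C (M1 ∪ M2 ∪ M3) (hub u)
      (κ u ++ ([l] ++ FreeGroup.invRev (κ (step E.KA.perm u l))))
    obtain ⟨a1, a2⟩ := hκD u hu
    obtain ⟨b1, b2⟩ := hκD _ hl
    have hhub : hub (step E.KA.perm u l) = hub u := by
      simp only [hub, if_neg hu, if_neg hl]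
      congr 1
      have h1 := E.avoid_prY hAl
      have h2 := hhubQ _ _ h1
      rwa [← E.p_run] at h2
    have hA : Avoid E.KA (E.p ⁻¹' D) (hub u)
        (κ u ++ ([l] ++ FreeGroup.invRev (κ (step E.KA.perm u l)))) := by
      refine a1.append ?_
      rw [a2]
      refine hAl.append ?_
      have := b1.inv
      rwa [b2] at this
    have hR : run E.KA.perm (hub u)
        (κ u ++ ([l] ++ FreeGroup.invRev (κ (step E.KA.perm u l)))) = hub u := by
      rw [run_append, run_append, a2]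
      change run E.KA.perm (step E.KA.perm u l) _ = _
      have := run_invRev E.KA.perm (κ (step E.KA.perm u l)) (hub (step E.KA.perm u l))
      rwa [b2, hhub] at this
    have hw0 : hubQ (E.p u) ∉ D := (hκQ _ hu).1.start
    have hubu : hub u = a (hubQ (E.p u)) := by simp only [hub, if_neg hu]
    rw [hubu] at hA hR ⊢
    have hg := E.piece_gen hCD a ha c hc (MQ (hubQ (E.p u))) (MN (a (hubQ (E.p u)))) hw0
      (hMQ _ hw0) (hMN _ (hnotC _ (by rw [ha]; exact hw0))) _ hA hR
    refine hg.mono ?_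
    refine subset_trans ?_ (Set.subset_union_left.trans Set.subset_union_left)
    exact Set.subset_biUnion_of_mem (u := pieceM)
      (⟨E.p u, hu, rfl⟩ : hubQ (E.p u) ∈ hubQ '' Dᶜ)
  -- fibre edges
  have G1 : ∀ u ∉ C, ∀ s : X × Bool, step E.KN.perm u s ∉ C →
      Good E.KA C (M1 ∪ M2 ∪ M3) hub κ u [(Sum.inl s.1, s.2)] := by
    intro u hu s hs
    by_cases huD : E.p u ∈ D
    · have hsD : E.p (step E.KN.perm u s) ∈ D := by rw [E.p_step_inl]; exact huD
      refine ⟨⟨hu, by change step E.KA.perm u _ ∉ C; rw [E.step_inl]; exact hs⟩, ?_⟩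
      change InGen E.KA C (M1 ∪ M2 ∪ M3) (hub u)
        (κ u ++ ([(Sum.inl s.1, s.2)] ++ FreeGroup.invRev
          (κ (step E.KA.perm u (Sum.inl s.1, s.2)))))
      rw [E.step_inl]
      have e1 : hub u = hubN u := by simp only [hub, if_pos huD]
      have e2 : κ u = emb Sum.inl (κN u) := by simp only [κ, if_pos huD]
      have e3 : κ (step E.KN.perm u s) = emb Sum.inl (κN (step E.KN.perm u s)) := by
        simp only [κ, if_pos hsD]
      obtain ⟨a1, a2⟩ := hκN u hu
      obtain ⟨b1, b2⟩ := hκN _ hs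
      have hh : hubN (step E.KN.perm u s) = hubN u := hhubN u [s] ⟨hu, hs⟩
      have hA : Avoid E.KN C (hubN u)
          (κN u ++ ([s] ++ FreeGroup.invRev (κN (step E.KN.perm u s)))) := by
        refine a1.append ?_
        rw [a2]
        refine Avoid.append (w₁ := [s]) ⟨hu, hs⟩ ?_
        have := b1.inv
        rwa [b2] at this
      have hR : run E.KN.perm (hubN u)
          (κN u ++ ([s] ++ FreeGroup.invRev (κN (step E.KN.perm u s)))) = hubN u := by
        rw [run_append, run_append, a2]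
        change run E.KN.perm (step E.KN.perm u s) _ = _
        have := run_invRev E.KN.perm (κN (step E.KN.perm u s)) (hubN (step E.KN.perm u s))
        rwa [b2, hh] at this
      have g₁ := hMN _ a1.start _ hA hR
      have g₂ : InGen E.KA C ((fun m : V × Word X => (m.1, emb Sum.inl m.2)) '' MN (hubN u))
          (hubN u) (emb Sum.inl (κN u ++ ([s] ++ FreeGroup.invRev (κN (step E.KN.perm u s))))) := by
        have := inGen_tr (K₁ := E.KN) (K₂ := E.KA) (C := C) (C' := C)
          (τ := fun x => [(Sum.inl x, true)]) (fun x v => by simpa [run, step] using E.perm_inl x v)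
          subset_rfl (fun u hu x hx => ⟨hu, by simpa [step, Avoid, E.perm_inl] using hx⟩)
          (fun u r hr hA => by
            rw [tr_eq_emb]
            exact Homot.of_cell (E.relN r hr) ((E.avoid_inl).2 hA)) g₁
        simpa only [tr_eq_emb] using this
      rw [emb_append, emb_append, emb_invRev, ← e3, ← e2] at g₂
      rw [e1]
      refine InGen.mono ?_ g₂
      refine subset_trans ?_ (Set.subset_union_right.trans Set.subset_union_left)
      exact Set.subset_biUnion_of_mem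
        (u := fun h => ((fun m : V × Word X => (m.1, emb Sum.inl m.2)) '' MN h))
        (⟨u, ⟨huD, hu⟩, rfl⟩ : hubN u ∈ hubN '' {u | E.p u ∈ D ∧ u ∉ C})
    · refine GP u (Sum.inl s.1, s.2) huD ?_
      rw [E.step_inl, E.p_step_inl]
      exact huD
  have G2 : ∀ u (n : Word X), Avoid E.KN C u n →
      Good E.KA C (M1 ∪ M2 ∪ M3) hub κ u (emb Sum.inl n) := by
    intro u n hn
    refine Good.of_letters hκ _ _ (E.avoid_inl.2 hn) ?_
    intro u hu l hl hs
    simp only [emb, List.mem_map] at hl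
    obtain ⟨s, _, rfl⟩ := hl
    rw [E.step_inl] at hs
    exact G1 u hu s hs
  -- parallel crossing edges
  have hpar : ∀ (t : Y × Bool) (w : Word X) (x : V), Avoid E.KN (B t) x w →
      ∃ w' : Word X, Avoid E.KN C (step E.KA.perm x (Sum.inr t.1, t.2)) w' ∧
        Homot E.KA C x (emb Sum.inl w ++ [(Sum.inr t.1, t.2)])
          ([(Sum.inr t.1, t.2)] ++ emb Sum.inl w') := by
    intro t w
    induction w with
    | nil =>
      intro x hx
      exact ⟨[], (hBgood t x hx).1.2, Homot.refl _ _⟩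
    | cons s w ih =>
      intro x hx
      obtain ⟨w', hw', hh⟩ := ih _ hx.2
      have hx1 := hBgood t x hx.1
      have hx2 := hBgood t _ hx.2.start
      have hsq1 : Avoid E.KA C x [(Sum.inl s.1, s.2), (Sum.inr t.1, t.2)] := by
        refine ⟨hx1.1.1, ?_⟩
        change Avoid E.KA C (step E.KA.perm x (Sum.inl s.1, s.2)) [(Sum.inr t.1, t.2)]
        rw [E.step_inl]
        exact hx2.1
      have hsq2 := hx1.2 s
      have hsq := E.square_move s t hsq1 hsq2
      have hstep : run E.KA.perm x ([(Sum.inr t.1, t.2)] ++ emb Sum.inl (E.n s t)) =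
          step E.KA.perm (step E.KN.perm x s) (Sum.inr t.1, t.2) := by
        rw [← hsq.run_eq]
        change step E.KA.perm (step E.KA.perm x (Sum.inl s.1, s.2)) (Sum.inr t.1, t.2) = _
        rw [E.step_inl]
      refine ⟨E.n s t ++ w', ?_, ?_⟩
      · have h1 : Avoid E.KA C (step E.KA.perm x (Sum.inr t.1, t.2)) (emb Sum.inl (E.n s t)) :=
          hsq2.right
        rw [E.avoid_inl] at h1
        refine h1.append ?_
        rw [run_append] at hstep
        change run E.KA.perm (step E.KA.perm x (Sum.inr t.1, t.2)) _ = _ at hstep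
        rw [E.run_inl] at hstep
        rw [hstep]
        exact hw'
      · have h1 : Homot E.KA C x
            ([(Sum.inl s.1, s.2)] ++ (emb Sum.inl w ++ [(Sum.inr t.1, t.2)]))
            ([(Sum.inl s.1, s.2)] ++ ([(Sum.inr t.1, t.2)] ++ emb Sum.inl w')) := by
          refine Homot.append_left _ ?_ ?_
          · refine ⟨hx1.1.1, ?_⟩
            change step E.KA.perm x (Sum.inl s.1, s.2) ∉ C
            rw [E.step_inl]
            exact hx2.1.1
          · change Homot E.KA C (step E.KA.perm x (Sum.inl s.1, s.2)) _ _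
            rw [E.step_inl]
            exact hh
        have h2 : Homot E.KA C x
            ([(Sum.inl s.1, s.2), (Sum.inr t.1, t.2)] ++ emb Sum.inl w')
            (([(Sum.inr t.1, t.2)] ++ emb Sum.inl (E.n s t)) ++ emb Sum.inl w') := by
          refine Homot.append_right hsq _ ?_
          rw [hsq.run_eq, hstep, E.avoid_inl]
          exact hw'
        rw [emb_append, emb_cons]
        have h3 := h1.trans h2
        simpa only [List.append_assoc, List.cons_append, List.nil_append] using h3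
  -- crossing edges starting over `D`
  have G3 : ∀ u ∉ C, ∀ t : Y × Bool, E.p u ∈ D → step E.KA.perm u (Sum.inr t.1, t.2) ∉ C →
      Good E.KA C (M1 ∪ M2 ∪ M3) hub κ u [(Sum.inr t.1, t.2)] := by
    intro u hu t huD hut
    have hmem : ∀ x ∈ B t ∪ T t, x ∉ C → step E.KA.perm x (Sum.inr t.1, t.2) ∉ C →
        Good E.KA C (M1 ∪ M2 ∪ M3) hub κ x [(Sum.inr t.1, t.2)] := by
      intro x hx hxC hxt
      refine ⟨⟨hxC, hxt⟩, ?_⟩
      change InGen E.KA C (M1 ∪ M2 ∪ M3) (hub x)
        (κ x ++ ([(Sum.inr t.1, t.2)] ++ FreeGroup.invRev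
          (κ (step E.KA.perm x (Sum.inr t.1, t.2)))))
      refine InGen.mem _ _ (Or.inr (Set.mem_iUnion.2 ⟨t, x, hx, rfl⟩)) ?_
      obtain ⟨a1, a2⟩ := hκ x hxC
      obtain ⟨b1, b2⟩ := hκ _ hxt
      refine a1.append ?_
      rw [a2]
      refine Avoid.append (w₁ := [(Sum.inr t.1, t.2)]) ⟨hxC, hxt⟩ ?_
      have := b1.inv
      rwa [b2] at this
    by_cases huB : u ∈ B t
    · exact hmem u (Or.inl huB) hu hut
    · obtain ⟨x, hxT, w, hA, hr⟩ := hTr t u huD huB
      obtain ⟨w', hw', hh⟩ := hpar t w x hA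
      have hxB := hTB t x hxT
      have hx1 := (hBgood t x hxB).1
      have gx := hmem x (Or.inr hxT) hx1.1 hx1.2
      have hAC : Avoid E.KN C x w := by
        rw [avoid_iff] at hA ⊢
        intro p hp h
        exact (hBgood t _ (hA p hp)).1.1 h
      have gw := G2 x w hAC
      have gw' := G2 _ w' hw'
      have gwi := Good.inv hκ gw
      rw [E.run_inl, hr] at gwi
      have hru : run E.KA.perm u (FreeGroup.invRev (emb Sum.inl w)) = x := by
        have := run_invRev E.KA.perm (emb Sum.inl w) x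
        rwa [E.run_inl, hr] at this
      have g2 := Good.append hκ gx (b := emb Sum.inl w') gw'
      have g3 := Good.append hκ gwi (b := [(Sum.inr t.1, t.2)] ++ emb Sum.inl w')
        (by rw [hru]; exact g2)
      refine Good.homot hκ g3 ?_
      have hAi : Avoid E.KA C u (FreeGroup.invRev (emb Sum.inl w)) := gwi.1
      have h1 : Homot E.KA C u
          (FreeGroup.invRev (emb Sum.inl w) ++ ([(Sum.inr t.1, t.2)] ++ emb Sum.inl w'))
          (FreeGroup.invRev (emb Sum.inl w) ++ (emb Sum.inl w ++ [(Sum.inr t.1, t.2)])) := by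
        refine Homot.append_left _ hAi ?_
        rw [hru]
        exact hh.symm
      have h2 : Homot E.KA C u
          ((FreeGroup.invRev (emb Sum.inl w) ++ emb Sum.inl w) ++ [(Sum.inr t.1, t.2)])
          ([] ++ [(Sum.inr t.1, t.2)]) := by
        refine Homot.append_right ?_ _ ?_
        · have := Homot.cancel_inv gw.1
          rwa [E.run_inl, hr] at this
        · rw [run_append, hru, E.run_inl, hr]
          exact ⟨hu, hut⟩
      rw [List.append_assoc, List.nil_append] at h2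
      exact h1.trans h2
  refine fgat_of_hub hub κ (M1 ∪ M2 ∪ M3) ((hM1.union hM2).union hM3) hκ ?_ v hv
  rintro u hu (x | y) hxu
  · have h1 := G1 u hu (x, true) (by rw [← E.step_inl]; exact hxu)
    exact h1.2
  · by_cases huD : E.p u ∈ D
    · exact (G3 u hu (y, true) huD hxu).2
    · by_cases hyD : E.p (E.KA.perm (Sum.inr y) u) ∈ D
      · have h0 : step E.KA.perm (E.KA.perm (Sum.inr y) u) (Sum.inr y, false) = u := by
          simp [step]
        have h1 := G3 _ hxu (y, false) hyD (by rw [h0]; exact hu)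
        have h2 := Good.inv hκ h1
        change Good E.KA C (M1 ∪ M2 ∪ M3) hub κ (step E.KA.perm
          (E.KA.perm (Sum.inr y) u) (Sum.inr y, false)) [(Sum.inr y, true)] at h2
        rw [h0] at h2
        exact h2.2
      · exact (GP u (Sum.inr y, true) huD hyD).2

end Pool.Agent.LT
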