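import Pool.Agent.LT.Basic

set_option autoImplicit false

namespace Pool.Agent.LT

universe u

/-- A finite presentation of the group `G`: finitely many generators `φ x`, `x : X`, and finitely
many relator words `r ∈ R` in the letters `x`, `x⁻¹`. -/
structure FinPres (G : Type*) [Group G] where
  X : Type
  finX : Finite X
  φ : X → G
  R : Set (List (X × Bool))
  finR : R.Finite
  surj : Function.Surjective (FreeGroup.lift φ)
  ker : (FreeGroup.lift φ).ker = Subgroup.normalClosure (FreeGroup.mk '' R)

section

variable {X : Type*} {G : Type*} [Group G]

/-- The permutation of a `G`-set given by the inverse of the element `φ x`. -/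
def actPerm (φ : X → G) (V : Type*) [MulAction G V] : X → Equiv.Perm V :=
  fun x => MulAction.toPerm (φ x)⁻¹

lemma run_actPerm (φ : X → G) (V : Type*) [MulAction G V] (w : Word X) (v : V) :
    run (actPerm φ V) v w = (FreeGroup.lift φ (FreeGroup.mk w))⁻¹ • v := by
  induction w generalizing v with
  | nil =>
    have : (FreeGroup.mk ([] : Word X)) = 1 := rfl
    rw [this, map_one, inv_one, one_smul]
    rfl
  | cons l w ih =>
    obtain ⟨x, b⟩ := l
    have : (FreeGroup.mk ((x, b) :: w)) = FreeGroup.mk [(x, b)] * FreeGroup.mk w := rfl
    rw [run_cons, ih, this, map_mul, mul_inv_rev, mul_smul]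
    congr 1
    cases b <;> simp [step, actPerm]

/-- The labelled complex of a `G`-set `V` for generators `φ` and relators `R`: there is an edge
labelled `x` from `v` to `(φ x)⁻¹ • v`. -/
def actComplex (φ : X → G) (R : Set (Word X))
    (hR : ∀ r ∈ R, FreeGroup.lift φ (FreeGroup.mk r) = 1) (V : Type*) [MulAction G V] :
    LabComplex X V where
  perm := actPerm φ V
  rel := R
  closed r hr v := by rw [run_actPerm, hR r hr, inv_one, one_smul]

end

lemma FinPres.lift_rel {G : Type*} [Group G] (P : FinPres G) (r : Word P.X) (hr : r ∈ P.R) :
    FreeGroup.lift P.φ (FreeGroup.mk r) = 1 := by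
  have : FreeGroup.mk r ∈ (FreeGroup.lift P.φ).ker := by
    rw [P.ker]
    exact Subgroup.subset_normalClosure ⟨r, hr, rfl⟩
  exact this

/-- The covering complex `T_H` of the presentation complex `T` of the presentation `P` of `G`
which corresponds to the subgroup `H`. Its vertices are the cosets `gH`, where `gH` stands for
the right coset `Hg⁻¹`; the edge labelled `x` leads from `Hg` to `Hg(φ x)`, that is from `g⁻¹H`
to `(φ x)⁻¹g⁻¹H`; and there is one `2`-cell with boundary label `r` at every vertex for every
relator `r`. -/
def cover {G : Type*} [Group G] (P : FinPres G) (H : Subgroup G) : LabComplex P.X (G ⧸ H) :=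
  actComplex P.φ P.R P.lift_rel (G ⧸ H)

/-- `H` is tame with respect to the presentation `P`: for every finite set `C` of vertices of the
covering complex `T_H`, every component of the complement of `C` has finitely generated
fundamental group. Here the complement of `C` is the subcomplex of all cells of `T_H` whose
closure contains no vertex of `C`; its component containing the vertex `v` has the edge path group
`Pi1 (cover P H) C v`.

This is the usual notion, where a finite subcomplex `D` is removed and the open set `T_H ∖ D` is
taken: if `C` is the vertex set of `D`, then only finitely many open cells of `T_H ∖ D` have a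
vertex of `C` in their closure (`T_H` is locally finite), and up to homotopy `T_H ∖ D` arises from
the above complement of `C` by adding finitely many points and gluing on finitely many finite
stars at their leaves. So the fundamental group of a component of `T_H ∖ D` is the free product of
finitely many of the groups `Pi1 (cover P H) C v` and a finitely generated free group, and each of
the groups `Pi1 (cover P H) C v` occurs. -/
def TameWith {G : Type*} [Group G] (P : FinPres G) (H : Subgroup G) : Prop :=
  ∀ C : Set (G ⧸ H), C.Finite → ∀ v : {v : G ⧸ H // v ∉ C}, Group.FG (Pi1 (cover P H) C v)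

/-- `G` is locally tame: it has a finite presentation, and every finitely generated subgroup is
tame with respect to some finite presentation of `G`. -/
def LocallyTame (G : Type u) [Group G] : Prop :=
  Nonempty (FinPres G) ∧ ∀ H : Subgroup G, H.FG → ∃ P : FinPres G, TameWith P H

end Pool.Agent.LT
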