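import Pool.Agent.LT.Good

set_option autoImplicit false

namespace Pool.Agent.LT

/-- Relabelling of words. -/
def emb {X Z : Type*} (f : X → Z) (w : Word X) : Word Z := w.map (fun l => (f l.1, l.2))

section emb

variable {X Z : Type*} (f : X → Z)

lemma emb_nil : emb f [] = [] := rfl

lemma emb_cons (l : X × Bool) (w : Word X) : emb f (l :: w) = (f l.1, l.2) :: emb f w := rfl

lemma emb_append (w w' : Word X) : emb f (w ++ w') = emb f w ++ emb f w' := by
  simp [emb]

lemma emb_invRev (w : Word X) : emb f (FreeGroup.invRev w) = FreeGroup.invRev (emb f w) := by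
  induction w with
  | nil => rfl
  | cons l w ih => rw [invRev_cons, emb_append, ih, emb_cons f l w, invRev_cons]; rfl

lemma tr_eq_emb (w : Word X) : tr (fun x => [(f x, true)]) w = emb f w := by
  induction w with
  | nil => rfl
  | cons l w ih =>
    obtain ⟨x, b⟩ := l
    rw [tr_cons, ih, emb_cons]
    cases b <;> simp [trL, FreeGroup.invRev]

end emb

/-- Data of a fibration of labelled complexes. -/
structure ExtData (X Y V W : Type*) where
  KN : LabComplex X V
  KQ : LabComplex Y W
  KA : LabComplex (X ⊕ Y) V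
  p : V → W
  n : (X × Bool) → (Y × Bool) → Word X
  m : Word Y → Word X
  perm_inl : ∀ x v, KA.perm (Sum.inl x) v = KN.perm x v
  p_inl : ∀ x v, p (KN.perm x v) = p v
  p_inr : ∀ y v, p (KA.perm (Sum.inr y) v) = KQ.perm y (p v)
  p_surj : Function.Surjective p
  fibre : ∀ v v', p v = p v' → ∃ w, run KN.perm v w = v'
  relN : ∀ r ∈ KN.rel, emb Sum.inl r ∈ KA.rel
  square : ∀ s t, [(Sum.inl s.1, s.2), (Sum.inr t.1, t.2)] ++
    FreeGroup.invRev ([(Sum.inr t.1, t.2)] ++ emb Sum.inl (n s t)) ∈ KA.rel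
  relQ : ∀ r ∈ KQ.rel, emb Sum.inr r ++ FreeGroup.invRev (emb Sum.inl (m r)) ∈ KA.rel

namespace ExtData

variable {X Y V W : Type*} (E : ExtData X Y V W)

lemma step_inl (v : V) (s : X × Bool) :
    step E.KA.perm v (Sum.inl s.1, s.2) = step E.KN.perm v s := by
  obtain ⟨x, b⟩ := s
  cases b with
  | true => simpa [step] using E.perm_inl x v
  | false =>
    simp only [step, Bool.false_eq_true, if_false]
    rw [Equiv.symm_apply_eq, E.perm_inl, Equiv.apply_symm_apply]

lemma run_inl (v : V) (w : Word X) : run E.KA.perm v (emb Sum.inl w) = run E.KN.perm v w := by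
  induction w generalizing v with
  | nil => rfl
  | cons l w ih => rw [emb_cons, run_cons, step_inl, ih, run_cons]

lemma p_step_inl (v : V) (s : X × Bool) : E.p (step E.KN.perm v s) = E.p v := by
  obtain ⟨x, b⟩ := s
  cases b with
  | true => simpa [step] using E.p_inl x v
  | false =>
    simp only [step, Bool.false_eq_true, if_false]
    have := E.p_inl x ((E.KN.perm x).symm v)
    rw [Equiv.apply_symm_apply] at this
    exact this.symm

lemma p_run_inl (v : V) (w : Word X) : E.p (run E.KN.perm v w) = E.p v := by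
  induction w generalizing v with
  | nil => rfl
  | cons l w ih => rw [run_cons, ih, p_step_inl]

lemma p_step_inr (v : V) (t : Y × Bool) :
    E.p (step E.KA.perm v (Sum.inr t.1, t.2)) = step E.KQ.perm (E.p v) t := by
  obtain ⟨y, b⟩ := t
  cases b with
  | true => simpa [step] using E.p_inr y v
  | false =>
    simp only [step, Bool.false_eq_true, if_false]
    have := E.p_inr y ((E.KA.perm (Sum.inr y)).symm v)
    rw [Equiv.apply_symm_apply] at this
    rw [this, Equiv.symm_apply_apply]

lemma p_run_inr (v : V) (w : Word Y) :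
    E.p (run E.KA.perm v (emb Sum.inr w)) = run E.KQ.perm (E.p v) w := by
  induction w generalizing v with
  | nil => rfl
  | cons l w ih => rw [emb_cons, run_cons, ih, p_step_inr, run_cons]

/-- Projection of words to the base. -/
def prY : Word (X ⊕ Y) → Word Y
  | [] => []
  | (Sum.inl _, _) :: w => prY w
  | (Sum.inr y, b) :: w => (y, b) :: prY w

lemma p_run (v : V) (w : Word (X ⊕ Y)) :
    E.p (run E.KA.perm v w) = run E.KQ.perm (E.p v) (prY w) := by
  induction w generalizing v with
  | nil => rfl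
  | cons l w ih =>
    obtain ⟨s | t, b⟩ := l
    · rw [run_cons, ih, E.step_inl v (s, b), p_step_inl]
      rfl
    · rw [run_cons, ih, E.p_step_inr v (t, b)]
      rfl

variable {D : Set W} {C : Set V}

lemma avoid_inl {v : V} {w : Word X} : Avoid E.KA C v (emb Sum.inl w) ↔ Avoid E.KN C v w := by
  induction w generalizing v with
  | nil => rfl
  | cons l w ih => rw [emb_cons, Avoid, Avoid, step_inl, ih]

lemma avoid_inl_fibre {v : V} (hv : E.p v ∉ D) (w : Word X) :
    Avoid E.KN (E.p ⁻¹' D) v w := by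
  induction w generalizing v with
  | nil => exact hv
  | cons l w ih => exact ⟨hv, ih (by rw [p_step_inl]; exact hv)⟩

lemma avoid_inr {v : V} {w : Word Y} (h : Avoid E.KQ D (E.p v) w) :
    Avoid E.KA (E.p ⁻¹' D) v (emb Sum.inr w) := by
  induction w generalizing v with
  | nil => exact h
  | cons l w ih => exact ⟨h.1, ih (by rw [p_step_inr]; exact h.2)⟩

lemma avoid_prY {v : V} {w : Word (X ⊕ Y)} (h : Avoid E.KA (E.p ⁻¹' D) v w) :
    Avoid E.KQ D (E.p v) (prY w) := by
  induction w generalizing v with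
  | nil => exact h
  | cons l w ih =>
    obtain ⟨s | t, b⟩ := l
    · have := ih h.2
      rw [E.step_inl v (s, b), p_step_inl] at this
      exact this
    · have := ih h.2
      rw [E.p_step_inr v (t, b)] at this
      exact ⟨h.1, this⟩

/-- The square move. -/
lemma square_move {u : V} (s : X × Bool) (t : Y × Bool)
    (h1 : Avoid E.KA C u [(Sum.inl s.1, s.2), (Sum.inr t.1, t.2)])
    (h2 : Avoid E.KA C u ([(Sum.inr t.1, t.2)] ++ emb Sum.inl (E.n s t))) :
    Homot E.KA C u [(Sum.inl s.1, s.2), (Sum.inr t.1, t.2)]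
      ([(Sum.inr t.1, t.2)] ++ emb Sum.inl (E.n s t)) :=
  Homot.of_rel_append (E.square s t) h1 h2

lemma commute_letter (t : Y × Bool) (w : Word X) {u : V} (hu : E.p u ∉ D)
    (ht : step E.KQ.perm (E.p u) t ∉ D) :
    ∃ w' : Word X, Homot E.KA (E.p ⁻¹' D) u (emb Sum.inl w ++ [(Sum.inr t.1, t.2)])
      ([(Sum.inr t.1, t.2)] ++ emb Sum.inl w') := by
  induction w generalizing u with
  | nil => exact ⟨[], Homot.refl _ _⟩
  | cons s w ih =>
    obtain ⟨w', hw'⟩ := ih (u := step E.KN.perm u s) (by rw [p_step_inl]; exact hu)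
      (by rw [p_step_inl]; exact ht)
    refine ⟨E.n s t ++ w', ?_⟩
    have hut : step E.KA.perm u (Sum.inr t.1, t.2) ∉ E.p ⁻¹' D := by
      change E.p _ ∉ D
      rw [p_step_inr]; exact ht
    have h1 : Homot E.KA (E.p ⁻¹' D) u
        ([(Sum.inl s.1, s.2)] ++ (emb Sum.inl w ++ [(Sum.inr t.1, t.2)]))
        ([(Sum.inl s.1, s.2)] ++ ([(Sum.inr t.1, t.2)] ++ emb Sum.inl w')) := by
      refine Homot.append_left _ ?_ ?_
      · refine ⟨hu, ?_⟩
        change E.p _ ∉ D
        rw [step_inl, p_step_inl]; exact hu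
      · change Homot E.KA (E.p ⁻¹' D) (step E.KA.perm u (Sum.inl s.1, s.2)) _ _
        rw [step_inl]
        exact hw'
    have hA1 : Avoid E.KA (E.p ⁻¹' D) u [(Sum.inl s.1, s.2), (Sum.inr t.1, t.2)] := by
      refine ⟨hu, ?_, ?_⟩
      · change E.p _ ∉ D
        rw [step_inl, p_step_inl]; exact hu
      · change E.p _ ∉ D
        rw [p_step_inr, step_inl, p_step_inl]; exact ht
    have hA2 : Avoid E.KA (E.p ⁻¹' D) u ([(Sum.inr t.1, t.2)] ++ emb Sum.inl (E.n s t)) := by
      refine ⟨hu, ?_⟩
      change Avoid E.KA (E.p ⁻¹' D) (step E.KA.perm u (Sum.inr t.1, t.2)) (emb Sum.inl (E.n s t))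
      rw [avoid_inl]
      exact E.avoid_inl_fibre hut _
    have h2 : Homot E.KA (E.p ⁻¹' D) u
        ([(Sum.inl s.1, s.2), (Sum.inr t.1, t.2)] ++ emb Sum.inl w')
        (([(Sum.inr t.1, t.2)] ++ emb Sum.inl (E.n s t)) ++ emb Sum.inl w') := by
      refine Homot.append_right (E.square_move s t hA1 hA2) _ ?_
      rw [avoid_inl]
      exact E.avoid_inl_fibre hA1.fin _
    rw [emb_append, emb_cons]
    have h3 := h1.trans h2
    simpa only [List.append_assoc, List.cons_append, List.nil_append] using h3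

lemma commute_word (b : Word Y) (w : Word X) {u : V} (hb : Avoid E.KQ D (E.p u) b) :
    ∃ w' : Word X, Homot E.KA (E.p ⁻¹' D) u (emb Sum.inl w ++ emb Sum.inr b)
      (emb Sum.inr b ++ emb Sum.inl w') := by
  induction b generalizing u w with
  | nil => exact ⟨w, by rw [emb_nil, List.append_nil]; exact Homot.refl _ _⟩
  | cons t b ih =>
    obtain ⟨w1, h1⟩ := E.commute_letter t w hb.1 hb.2.start
    obtain ⟨w2, h2⟩ := ih w1 (u := step E.KA.perm u (Sum.inr t.1, t.2))
      (by rw [p_step_inr]; exact hb.2)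
    refine ⟨w2, ?_⟩
    rw [emb_cons]
    have h3 : Homot E.KA (E.p ⁻¹' D) u
        ((emb Sum.inl w ++ [(Sum.inr t.1, t.2)]) ++ emb Sum.inr b)
        (([(Sum.inr t.1, t.2)] ++ emb Sum.inl w1) ++ emb Sum.inr b) := by
      refine Homot.append_right h1 _ ?_
      apply E.avoid_inr
      rw [run_append, run_inl]
      change Avoid E.KQ D (E.p (step E.KA.perm (run E.KN.perm u w) (Sum.inr t.1, t.2))) b
      rw [p_step_inr, p_run_inl]
      exact hb.2
    have h4 : Homot E.KA (E.p ⁻¹' D) u
        ([(Sum.inr t.1, t.2)] ++ (emb Sum.inl w1 ++ emb Sum.inr b))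
        ([(Sum.inr t.1, t.2)] ++ (emb Sum.inr b ++ emb Sum.inl w2)) := by
      refine Homot.append_left _ ?_ h2
      refine ⟨hb.1, ?_⟩
      change E.p _ ∉ D
      rw [p_step_inr]
      exact hb.2.start
    have h3' := h3
    simp only [List.append_assoc, List.cons_append, List.nil_append] at h3' h4 ⊢
    exact h3'.trans h4

lemma normal_form (w : Word (X ⊕ Y)) {u : V} (hw : Avoid E.KA (E.p ⁻¹' D) u w) :
    ∃ n : Word X, Homot E.KA (E.p ⁻¹' D) u w (emb Sum.inr (prY w) ++ emb Sum.inl n) := by
  induction w generalizing u with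
  | nil => exact ⟨[], Homot.refl _ _⟩
  | cons l w ih =>
    obtain ⟨n, hn⟩ := ih hw.2
    have h1 : Homot E.KA (E.p ⁻¹' D) u ([l] ++ w)
        ([l] ++ (emb Sum.inr (prY w) ++ emb Sum.inl n)) :=
      Homot.append_left _ ⟨hw.1, hw.2.start⟩ hn
    obtain ⟨s | t, b⟩ := l
    · have hA : Avoid E.KQ D (E.p u) (prY w) := by
        have := E.avoid_prY hw.2
        rwa [E.step_inl u (s, b), p_step_inl] at this
      obtain ⟨w', hw'⟩ := E.commute_word (prY w) [(s, b)] hA
      refine ⟨w' ++ n, ?_⟩
      have h2 : Homot E.KA (E.p ⁻¹' D) u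
          ((emb Sum.inl [(s, b)] ++ emb Sum.inr (prY w)) ++ emb Sum.inl n)
          ((emb Sum.inr (prY w) ++ emb Sum.inl w') ++ emb Sum.inl n) := by
        refine Homot.append_right hw' _ ?_
        rw [avoid_inl]
        apply E.avoid_inl_fibre
        rw [run_append, p_run_inr, run_inl, p_run_inl]
        exact hA.fin
      rw [emb_append]
      have h3 : Homot E.KA (E.p ⁻¹' D) u ([(Sum.inl s, b)] ++ w)
          ((emb Sum.inr (prY w) ++ emb Sum.inl w') ++ emb Sum.inl n) := by
        refine h1.trans ?_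
        rw [← List.append_assoc]
        exact h2
      rw [List.append_assoc] at h3
      exact h3
    · refine ⟨n, h1⟩

lemma lift_homot {w0 : W} {b b' : Word Y} (h : Homot E.KQ D w0 b b') :
    ∀ u, E.p u = w0 → Avoid E.KQ D w0 b →
      ∃ m : Word X, Homot E.KA (E.p ⁻¹' D) u (emb Sum.inr b) (emb Sum.inr b' ++ emb Sum.inl m) := by
  induction h with
  | rel a a' haa =>
    intro u hu ha
    cases haa with
    | cancel b₁ b₂ y c h =>
      refine ⟨[], ?_⟩
      rw [emb_nil, List.append_nil, emb_append, emb_append, emb_cons, emb_cons]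
      refine Relation.EqvGen.rel _ _ (HStep.cancel _ _ _ _ ?_)
      have := E.avoid_inr (v := u) (by rw [hu]; exact ha)
      rwa [emb_append, emb_cons, emb_cons] at this
    | cell b₁ b₂ r hr h =>
      have ha1 : Avoid E.KA (E.p ⁻¹' D) u (emb Sum.inr b₁) := E.avoid_inr (by rw [hu]; exact ha.left)
      have hp1 : E.p (run E.KA.perm u (emb Sum.inr b₁)) = run E.KQ.perm w0 b₁ := by
        rw [p_run_inr, hu]
      have hr1 : Avoid E.KA (E.p ⁻¹' D) (run E.KA.perm u (emb Sum.inr b₁)) (emb Sum.inr r) :=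
        E.avoid_inr (by rw [hp1]; exact ha.right.left)
      have hm1 : Avoid E.KA (E.p ⁻¹' D) (run E.KA.perm u (emb Sum.inr b₁))
          (emb Sum.inl (E.m r)) := by
        rw [avoid_inl]
        exact E.avoid_inl_fibre (by rw [hp1]; exact ha.left.fin) _
      have h1 := Homot.of_rel_append (E.relQ r hr) hr1 hm1
      have hb2 : Avoid E.KQ D (run E.KQ.perm w0 b₁) b₂ := by
        have := ha.right.right
        rwa [E.KQ.closed r hr] at this
      obtain ⟨m', hm'⟩ := E.commute_word b₂ (E.m r) (u := run E.KA.perm u (emb Sum.inr b₁))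
        (by rw [hp1]; exact hb2)
      refine ⟨m', ?_⟩
      have h2 : Homot E.KA (E.p ⁻¹' D) (run E.KA.perm u (emb Sum.inr b₁))
          (emb Sum.inr r ++ emb Sum.inr b₂) (emb Sum.inl (E.m r) ++ emb Sum.inr b₂) := by
        refine Homot.append_right h1 _ (E.avoid_inr ?_)
        rw [p_run_inr, hp1, E.KQ.closed r hr]
        exact hb2
      have h3 := Homot.append_left _ ha1 (h2.trans hm')
      rw [emb_append, emb_append, emb_append, List.append_assoc]
      exact h3
  | refl a => intro u _ _; exact ⟨[], by rw [emb_nil, List.append_nil]; exact Homot.refl _ _⟩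
  | symm a a' haa ih =>
    intro u hu ha
    have ha' : Avoid E.KQ D w0 a := (Homot.avoid_iff haa).2 ha
    obtain ⟨m, hm⟩ := ih u hu ha'
    refine ⟨FreeGroup.invRev m, ?_⟩
    have hA : Avoid E.KA (E.p ⁻¹' D) u (emb Sum.inr a') := E.avoid_inr (by rw [hu]; exact ha)
    have hmA : Avoid E.KA (E.p ⁻¹' D) (run E.KA.perm u (emb Sum.inr a')) (emb Sum.inl m) := by
      rw [avoid_inl]
      exact E.avoid_inl_fibre hA.fin _
    have h1 : Homot E.KA (E.p ⁻¹' D) u (emb Sum.inr a ++ FreeGroup.invRev (emb Sum.inl m))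
        ((emb Sum.inr a' ++ emb Sum.inl m) ++ FreeGroup.invRev (emb Sum.inl m)) := by
      refine Homot.append_right hm _ ?_
      rw [hm.run_eq, run_append]
      exact hmA.inv
    have h2 : Homot E.KA (E.p ⁻¹' D) u
        (emb Sum.inr a' ++ (emb Sum.inl m ++ FreeGroup.invRev (emb Sum.inl m)))
        (emb Sum.inr a' ++ []) := Homot.append_left _ hA (Homot.inv_cancel hmA)
    rw [List.append_nil] at h2
    rw [List.append_assoc] at h1
    rw [emb_invRev]
    exact (h1.trans h2).symm
  | trans a a' a'' haa haa' ih1 ih2 =>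
    intro u hu ha
    have ha' : Avoid E.KQ D w0 a' := (Homot.avoid_iff haa).1 ha
    obtain ⟨m, hm⟩ := ih1 u hu ha
    obtain ⟨m', hm'⟩ := ih2 u hu ha'
    refine ⟨m' ++ m, ?_⟩
    have hA : Avoid E.KA (E.p ⁻¹' D) u (emb Sum.inr a') := E.avoid_inr (by rw [hu]; exact ha')
    have h1 : Homot E.KA (E.p ⁻¹' D) u (emb Sum.inr a' ++ emb Sum.inl m)
        ((emb Sum.inr a'' ++ emb Sum.inl m') ++ emb Sum.inl m) := by
      refine Homot.append_right hm' _ ?_
      rw [avoid_inl]
      exact E.avoid_inl_fibre hA.fin _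
    rw [emb_append, ← List.append_assoc]
    exact hm.trans h1

end ExtData

end Pool.Agent.LT
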