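import Pool.Agent.LT.Core

set_option autoImplicit false

namespace Pool.Agent.LT

universe u

lemma LocallyTame.all {G : Type u} [Group G] (h : LocallyTame G) (P : FinPres G)
    (H : Subgroup G) (hH : H.FG) : TameWith P H := by
  obtain ⟨P', hP'⟩ := h.2 H hH
  exact TameWith.change P' P H hP'

section transfer

variable {X V V' : Type*} {K : LabComplex X V} {K' : LabComplex X V'} {ι : V' → V} {C : Set V}

lemma step_map (hι : ∀ x v', K.perm x (ι v') = ι (K'.perm x v')) (v' : V') (l : X × Bool) :
    step K.perm (ι v') l = ι (step K'.perm v' l) := by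
  obtain ⟨x, b⟩ := l
  cases b with
  | true => simpa [step] using hι x v'
  | false =>
    simp only [step, Bool.false_eq_true, if_false]
    rw [Equiv.symm_apply_eq, hι, Equiv.apply_symm_apply]

lemma run_map (hι : ∀ x v', K.perm x (ι v') = ι (K'.perm x v')) (v' : V') (w : Word X) :
    run K.perm (ι v') w = ι (run K'.perm v' w) := by
  induction w generalizing v' with
  | nil => rfl
  | cons l w ih => rw [run_cons, step_map hι, ih, run_cons]

lemma avoid_map (hι : ∀ x v', K.perm x (ι v') = ι (K'.perm x v')) (v' : V') (w : Word X) :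
    Avoid K C (ι v') w ↔ Avoid K' (ι ⁻¹' C) v' w := by
  induction w generalizing v' with
  | nil => rfl
  | cons l w ih => rw [Avoid, Avoid, step_map hι, ih]; rfl

lemma homot_map (hι : ∀ x v', K.perm x (ι v') = ι (K'.perm x v')) (hrel : K'.rel ⊆ K.rel)
    {v' : V'} {w w' : Word X} (h : Homot K' (ι ⁻¹' C) v' w w') : Homot K C (ι v') w w' := by
  induction h with
  | rel a b hab =>
    refine Relation.EqvGen.rel _ _ ?_
    cases hab with
    | cancel w₁ w₂ x b h => exact HStep.cancel _ _ _ _ ((avoid_map hι _ _).2 h)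
    | cell w₁ w₂ r hr h => exact HStep.cell _ _ _ (hrel hr) ((avoid_map hι _ _).2 h)
  | refl => exact Homot.refl _ _
  | symm _ _ _ ih => exact ih.symm
  | trans _ _ _ _ _ ih1 ih2 => exact ih1.trans ih2

lemma fgat_map (hι : ∀ x v', K.perm x (ι v') = ι (K'.perm x v')) (hrel : K'.rel ⊆ K.rel)
    (hinj : Function.Injective ι) {v' : V'} (h : FGat K' (ι ⁻¹' C) v') : FGat K C (ι v') := by
  obtain ⟨M, hM, hgen⟩ := h
  refine ⟨(fun m : V' × Word X => (ι m.1, m.2)) '' M, hM.image _, ?_⟩
  intro w hw hr
  have key : ∀ (u : V') (w : Word X), InGen K' (ι ⁻¹' C) M u w →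
      InGen K C ((fun m : V' × Word X => (ι m.1, m.2)) '' M) (ι u) w := by
    intro u w h
    induction h with
    | nil v hv => exact InGen.nil _ hv
    | mem v w hm ha => exact InGen.mem _ _ ⟨(v, w), hm, rfl⟩ ((avoid_map hι _ _).2 ha)
    | append v w₁ w₂ _ _ ih₁ ih₂ =>
      exact InGen.append _ _ _ ih₁ (by rw [run_map hι]; exact ih₂)
    | inv v w _ ih =>
      have := InGen.inv _ _ ih
      rwa [run_map hι] at this
    | homot v w w' _ h' ih => exact InGen.homot _ _ _ ih (homot_map hι hrel h')
  apply key
  apply hgen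
  · exact (avoid_map hι _ _).1 hw
  · rw [run_map hι] at hr
    exact hinj hr

end transfer

/-- Tameness for arbitrary points of a `G`-set with suitable stabilisers. -/
lemma fgat_of_stabilizer {G : Type u} [Group G] (P : FinPres G) (V : Type*) [MulAction G V]
    (C : Set V) (hC : C.Finite) (v : V) (hv : v ∉ C)
    (h : TameWith P (MulAction.stabilizer G v)) :
    FGat (actComplex P.φ P.R P.lift_rel V) C v := by
  have hinj : Function.Injective (MulAction.ofQuotientStabilizer G v) :=
    MulAction.injective_ofQuotientStabilizer G v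
  have e : MulAction.ofQuotientStabilizer G v ((1 : G) : G ⧸ MulAction.stabilizer G v) = v := by
    rw [MulAction.ofQuotientStabilizer_mk, one_smul]
  have h1 := (fg_iff_fgat ⟨((1 : G) : G ⧸ MulAction.stabilizer G v), by
      intro h; apply hv; rw [← e]; exact h⟩).1
    (h ((MulAction.ofQuotientStabilizer G v) ⁻¹' C) (hC.preimage hinj.injOn)
      ⟨((1 : G) : G ⧸ MulAction.stabilizer G v), by intro h; apply hv; rw [← e]; exact h⟩)
  have h2 := fgat_map (K := actComplex P.φ P.R P.lift_rel V)
    (K' := cover P (MulAction.stabilizer G v)) (ι := MulAction.ofQuotientStabilizer G v) (C := C)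
    (fun x v' => by
      change (P.φ x)⁻¹ • MulAction.ofQuotientStabilizer G v v' =
        MulAction.ofQuotientStabilizer G v ((P.φ x)⁻¹ • v')
      rw [MulAction.ofQuotientStabilizer_smul]) subset_rfl hinj h1
  rwa [e] at h2

end Pool.Agent.LT
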