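import Pool.Agent.LT.Basic

set_option autoImplicit false

namespace Pool.Agent.LT

variable {X V : Type*}

/-- Edge paths generated, up to homotopy in the complement of `C`, by a set `M` of edge paths. -/
inductive InGen (K : LabComplex X V) (C : Set V) (M : Set (V × Word X)) : V → Word X → Prop
  | nil (v : V) (hv : v ∉ C) : InGen K C M v []
  | mem (v : V) (w : Word X) (h : (v, w) ∈ M) (ha : Avoid K C v w) : InGen K C M v w
  | append (v : V) (w₁ w₂ : Word X) (h₁ : InGen K C M v w₁)
      (h₂ : InGen K C M (run K.perm v w₁) w₂) : InGen K C M v (w₁ ++ w₂)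
  | inv (v : V) (w : Word X) (h : InGen K C M v w) :
      InGen K C M (run K.perm v w) (FreeGroup.invRev w)
  | homot (v : V) (w w' : Word X) (h : InGen K C M v w) (h' : Homot K C v w w') :
      InGen K C M v w'

variable {K : LabComplex X V} {C : Set V}

lemma InGen.avoid {M : Set (V × Word X)} {v : V} {w : Word X} (h : InGen K C M v w) :
    Avoid K C v w := by
  induction h with
  | nil v hv => exact hv
  | mem v w h ha => exact ha
  | append v w₁ w₂ h₁ h₂ ih₁ ih₂ => exact ih₁.append ih₂
  | inv v w h ih => exact ih.inv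
  | homot v w w' h h' ih => exact h'.avoid_iff.1 ih

lemma InGen.mono {M M' : Set (V × Word X)} (hM : M ⊆ M') {v : V} {w : Word X}
    (h : InGen K C M v w) : InGen K C M' v w := by
  induction h with
  | nil v hv => exact InGen.nil v hv
  | mem v w h ha => exact InGen.mem v w (hM h) ha
  | append v w₁ w₂ h₁ h₂ ih₁ ih₂ => exact InGen.append v w₁ w₂ ih₁ ih₂
  | inv v w h ih => exact InGen.inv v w ih
  | homot v w w' h h' ih => exact InGen.homot v w w' ih h'

/-- Finite generation of the closed edge paths at `v` in the complement of `C`. -/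
def FGat (K : LabComplex X V) (C : Set V) (v : V) : Prop :=
  ∃ M : Set (V × Word X), M.Finite ∧
    ∀ w, Avoid K C v w → run K.perm v w = v → InGen K C M v w

lemma fgat_of_fg (v : {v : V // v ∉ C}) (h : Group.FG (Pi1 K C v)) : FGat K C v.1 := by
  rw [Group.fg_iff] at h
  obtain ⟨S, hS, hfin⟩ := h
  choose rep hrep1 hrep2 hrep using fun g : Pi1 K C v => Pi1.exists_rep g
  refine ⟨(fun g : Pi1 K C v => (v.1, rep g)) '' S, hfin.image _, ?_⟩
  have key : ∀ g : Pi1 K C v, g ∈ Subgroup.closure S → 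
      InGen K C ((fun g : Pi1 K C v => (v.1, rep g)) '' S) v.1 (rep g) := by
    intro g hg
    induction hg using Subgroup.closure_induction with
    | mem g hg => exact InGen.mem _ _ ⟨g, hg, rfl⟩ (hrep1 g)
    | one =>
      refine InGen.homot _ _ _ (InGen.nil _ v.2) ?_
      refine Pi1.exact (v := v) (h := v.2) (h' := rfl) (k := hrep1 1) (k' := hrep2 1) ?_
      rw [← hrep 1, Pi1.one_eq]
    | mul x y hx hy ihx ihy =>
      have h1 : InGen K C ((fun g : Pi1 K C v => (v.1, rep g)) '' S) v.1
          (rep x ++ rep y) := by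
        refine InGen.append _ _ _ ihx ?_
        rw [hrep2 x]
        exact ihy
      refine InGen.homot _ _ _ h1 ?_
      refine Pi1.exact (v := v) (h := (hrep1 x).append ((hrep2 x).symm ▸ hrep1 y))
        (h' := by rw [run_append, hrep2, hrep2]) (k := hrep1 _) (k' := hrep2 _) ?_
      rw [← hrep (x * y), ← Pi1.mk_mul (h := hrep1 x) (h' := hrep2 x) (k := hrep1 y)
        (k' := hrep2 y), ← hrep x, ← hrep y]
    | inv x hx ihx =>
      have h1 := InGen.inv _ _ ihx
      rw [hrep2 x] at h1
      refine InGen.homot _ _ _ h1 ?_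
      refine Pi1.exact (v := v) (h := by have := (hrep1 x).inv; rwa [hrep2] at this)
        (h' := by have := run_invRev K.perm (rep x) v.1; rwa [hrep2] at this)
        (k := hrep1 _) (k' := hrep2 _) ?_
      rw [← hrep (x⁻¹), ← Pi1.mk_inv (h := hrep1 x) (h' := hrep2 x), ← hrep x]
  intro w hw hr
  have h1 := key (Pi1.mk w hw hr) (by rw [hS]; trivial)
  refine InGen.homot _ _ _ h1 ?_
  refine Pi1.exact (v := v) (h := hrep1 _) (h' := hrep2 _) (k := hw) (k' := hr) ?_
  rw [← hrep]

lemma fg_of_fgat (v : {v : V // v ∉ C}) (h : FGat K C v.1) : Group.FG (Pi1 K C v) := by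
  classical
  obtain ⟨M, hM, hgen⟩ := h
  -- connecting paths
  have hex : ∀ u : V, ∃ q : Word X, (∃ q' : Word X, Avoid K C v.1 q' ∧ run K.perm v.1 q' = u) →
      Avoid K C v.1 q ∧ run K.perm v.1 q = u := by
    intro u
    by_cases h : ∃ q' : Word X, Avoid K C v.1 q' ∧ run K.perm v.1 q' = u
    · obtain ⟨q, hq⟩ := h
      exact ⟨q, fun _ => hq⟩
    · exact ⟨[], fun h' => absurd h' h⟩
  choose q hq using hex
  -- loop attached to a path
  have hloop : ∀ u w, (∃ q' : Word X, Avoid K C v.1 q' ∧ run K.perm v.1 q' = u) →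
      Avoid K C u w →
      (∃ q' : Word X, Avoid K C v.1 q' ∧ run K.perm v.1 q' = run K.perm u w) ∧
      (Avoid K C v.1 (q u ++ (w ++ FreeGroup.invRev (q (run K.perm u w)))) ∧
      run K.perm v.1 (q u ++ (w ++ FreeGroup.invRev (q (run K.perm u w)))) = v.1) := by
    intro u w hu hw
    obtain ⟨h1, h2⟩ := hq u hu
    have hr : ∃ q' : Word X, Avoid K C v.1 q' ∧ run K.perm v.1 q' = run K.perm u w :=
      ⟨q u ++ w, h1.append (by rw [h2]; exact hw), by rw [run_append, h2]⟩
    obtain ⟨h3, h4⟩ := hq _ hr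
    refine ⟨hr, ?_, ?_⟩
    · refine h1.append ?_
      rw [h2]
      refine hw.append ?_
      have := h3.inv
      rwa [h4] at this
    · rw [run_append, run_append, h2]
      have := run_invRev K.perm (q (run K.perm u w)) v.1
      rwa [h4] at this
  have hLex : ∀ m : V × Word X, ∃ g : Pi1 K C v,
      ∀ (h1 : ∃ q' : Word X, Avoid K C v.1 q' ∧ run K.perm v.1 q' = m.1)
        (h2 : Avoid K C m.1 m.2), g =
      Pi1.mk (q m.1 ++ (m.2 ++ FreeGroup.invRev (q (run K.perm m.1 m.2))))
        (hloop m.1 m.2 h1 h2).2.1 (hloop m.1 m.2 h1 h2).2.2 := by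
    intro m
    by_cases h : (∃ q' : Word X, Avoid K C v.1 q' ∧ run K.perm v.1 q' = m.1) ∧ Avoid K C m.1 m.2
    · exact ⟨Pi1.mk _ (hloop m.1 m.2 h.1 h.2).2.1 (hloop m.1 m.2 h.1 h.2).2.2, fun _ _ => rfl⟩
    · exact ⟨1, fun h1 h2 => absurd ⟨h1, h2⟩ h⟩
  choose L' hL' using hLex
  obtain ⟨L, hLL⟩ : ∃ L : V → Word X → Pi1 K C v, ∀ m : V × Word X, L m.1 m.2 = L' m :=
    ⟨fun u w => L' (u, w), fun m => rfl⟩
  have hL : ∀ u w (h1 : ∃ q' : Word X, Avoid K C v.1 q' ∧ run K.perm v.1 q' = u)
      (h2 : Avoid K C u w), L u w =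
      Pi1.mk (q u ++ (w ++ FreeGroup.invRev (q (run K.perm u w))))
        (hloop u w h1 h2).2.1 (hloop u w h1 h2).2.2 := by
    intro u w h1 h2
    rw [hLL (u, w)]
    exact hL' (u, w) h1 h2
  have key : ∀ u w, InGen K C M u w →
      (∃ q' : Word X, Avoid K C v.1 q' ∧ run K.perm v.1 q' = u) →
      L u w ∈ Subgroup.closure ((fun m : V × Word X => L m.1 m.2) '' M) := by
    intro u w h
    induction h with
    | nil u hu =>
      intro hr
      have : L u [] = 1 := by
        rw [hL u [] hr hu, Pi1.one_eq]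
        refine Pi1.mk_eq ?_
        exact Homot.inv_cancel (hq u hr).1
      rw [this]
      exact one_mem _
    | mem u w h ha => intro hr; exact Subgroup.subset_closure ⟨(u, w), h, rfl⟩
    | append u w₁ w₂ h₁ h₂ ih₁ ih₂ =>
      intro hr
      have a1 := h₁.avoid
      have a2 := h₂.avoid
      have hr1 := (hloop u w₁ hr a1).1
      have : L u (w₁ ++ w₂) = L u w₁ * L (run K.perm u w₁) w₂ := by
        rw [hL u _ hr (a1.append a2), hL u _ hr a1, hL _ _ hr1 a2, Pi1.mk_mul]
        refine Pi1.mk_eq ?_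
        obtain ⟨b1, b2⟩ := hq u hr
        obtain ⟨c1, c2⟩ := hq _ hr1
        have hr2 := (hloop _ w₂ hr1 a2).1
        obtain ⟨d1, d2⟩ := hq _ hr2
        rw [run_append]
        have e1 : Homot K C (run K.perm v.1 (q u ++ w₁))
            ((FreeGroup.invRev (q (run K.perm u w₁)) ++ q (run K.perm u w₁)) ++
              (w₂ ++ FreeGroup.invRev (q (run K.perm (run K.perm u w₁) w₂))))
            ([] ++ (w₂ ++ FreeGroup.invRev (q (run K.perm (run K.perm u w₁) w₂)))) := by
          refine Homot.append_right ?_ _ ?_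
          · have := Homot.cancel_inv c1
            rw [run_append, b2]
            rwa [c2] at this
          · rw [run_append, run_append, b2]
            have := run_invRev K.perm (q (run K.perm u w₁)) v.1
            rw [c2] at this
            rw [this, c2]
            refine a2.append ?_
            have := d1.inv
            rwa [d2] at this
        have e2 := Homot.append_left (q u ++ w₁) (b1.append (by rw [b2]; exact a1)) e1
        simp only [List.append_assoc, List.nil_append] at e2 ⊢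
        exact e2.symm
      rw [this]
      exact mul_mem (ih₁ hr) (ih₂ hr1)
    | inv u w h ih =>
      intro hr
      have a1 := h.avoid
      -- `u` itself is reachable
      have hr0 : ∃ q' : Word X, Avoid K C v.1 q' ∧ run K.perm v.1 q' = u := by
        obtain ⟨p, hp1, hp2⟩ := hr
        refine ⟨p ++ FreeGroup.invRev w, hp1.append (by rw [hp2]; exact a1.inv), ?_⟩
        rw [run_append, hp2, run_invRev]
      have : L (run K.perm u w) (FreeGroup.invRev w) = (L u w)⁻¹ := by
        rw [hL _ _ hr a1.inv, hL u _ hr0 a1, Pi1.mk_inv]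
        refine Pi1.mk_eq ?_
        rw [run_invRev, invRev_append, invRev_append, invRev_invRev, List.append_assoc]
        exact Homot.refl _ _
      rw [this]
      exact inv_mem (ih hr0)
    | homot u w w' h h' ih =>
      intro hr
      have a1 := h.avoid
      have a2 := h'.avoid_iff.1 a1
      have : L u w' = L u w := by
        rw [hL u _ hr a2, hL u _ hr a1]
        refine Pi1.mk_eq ?_
        obtain ⟨b1, b2⟩ := hq u hr
        have hr2 := (hloop _ w hr a1).1
        obtain ⟨d1, d2⟩ := hq _ hr2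
        rw [← h'.run_eq]
        refine Homot.append_left _ b1 ?_
        rw [b2]
        refine Homot.append_right h'.symm _ ?_
        rw [← h'.run_eq]
        have := d1.inv
        rwa [d2] at this
      rw [this]
      exact ih hr
  rw [Group.fg_iff]
  have hv : ∃ q' : Word X, Avoid K C v.1 q' ∧ run K.perm v.1 q' = v.1 := ⟨[], v.2, rfl⟩
  obtain ⟨hv1, hv2⟩ := hq v.1 hv
  refine ⟨insert (Pi1.mk (q v.1) hv1 hv2) ((fun m : V × Word X => L m.1 m.2) '' M), ?_,
    (hM.image _).insert _⟩
  rw [eq_top_iff]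
  rintro g -
  obtain ⟨a, ha1, ha2, rfl⟩ := Pi1.exists_rep g
  have h1 := key v.1 a (hgen a ha1 ha2) hv
  have h2 : (Pi1.mk a ha1 ha2 : Pi1 K C v) =
      (Pi1.mk (q v.1) hv1 hv2)⁻¹ * L v.1 a * Pi1.mk (q v.1) hv1 hv2 := by
    rw [hL v.1 _ hv ha1]
    have : ∀ (r : V) (hr : r = v.1)
        (h3 : Avoid K C v.1 (q v.1 ++ (a ++ FreeGroup.invRev (q r))))
        (h4 : run K.perm v.1 (q v.1 ++ (a ++ FreeGroup.invRev (q r))) = v.1),
        (Pi1.mk (q v.1 ++ (a ++ FreeGroup.invRev (q r))) h3 h4 : Pi1 K C v) =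
          Pi1.mk (q v.1) hv1 hv2 * Pi1.mk a ha1 ha2 * (Pi1.mk (q v.1) hv1 hv2)⁻¹ := by
      intro r hr h3 h4
      subst hr
      rw [Pi1.mk_mul, Pi1.mk_inv, Pi1.mk_mul]
      refine Pi1.mk_eq ?_
      rw [List.append_assoc]
      exact Homot.refl _ _
    rw [this _ ha2]
    group
  rw [h2]
  have hc : (Pi1.mk (q v.1) hv1 hv2 : Pi1 K C v) ∈ Subgroup.closure
      (insert (Pi1.mk (q v.1) hv1 hv2) ((fun m : V × Word X => L m.1 m.2) '' M)) :=
    Subgroup.subset_closure (Set.mem_insert _ _)
  exact mul_mem (mul_mem (inv_mem hc)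
    (Subgroup.closure_mono (Set.subset_insert _ _) h1)) hc

theorem fg_iff_fgat (v : {v : V // v ∉ C}) : Group.FG (Pi1 K C v) ↔ FGat K C v.1 :=
  ⟨fgat_of_fg v, fg_of_fgat v⟩

end Pool.Agent.LT
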