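import Pool.Agent.LT.Indep2

set_option autoImplicit false

namespace Pool.Agent.LT

variable {X V : Type*} {K : LabComplex X V} {C : Set V}

/-- The path `a` from `u`, closed up by the connecting paths `κ`, is generated by `M`. -/
def Good (K : LabComplex X V) (C : Set V) (M : Set (V × Word X)) (hub : V → V) (κ : V → Word X)
    (u : V) (a : Word X) : Prop :=
  Avoid K C u a ∧ InGen K C M (hub u) (κ u ++ (a ++ FreeGroup.invRev (κ (run K.perm u a))))

variable {M : Set (V × Word X)} {hub : V → V} {κ : V → Word X}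

lemma Good.nil (hκ : ∀ u ∉ C, Avoid K C (hub u) (κ u) ∧ run K.perm (hub u) (κ u) = u)
    {u : V} (hu : u ∉ C) : Good K C M hub κ u [] := by
  refine ⟨hu, ?_⟩
  obtain ⟨h1, h2⟩ := hκ u hu
  exact InGen.homot _ _ _ (InGen.nil _ h1.start) (Homot.inv_cancel h1).symm

lemma Good.append (hκ : ∀ u ∉ C, Avoid K C (hub u) (κ u) ∧ run K.perm (hub u) (κ u) = u)
    {u : V} {a b : Word X} (ha : Good K C M hub κ u a)
    (hb : Good K C M hub κ (run K.perm u a) b) : Good K C M hub κ u (a ++ b) := by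
  refine ⟨ha.1.append hb.1, ?_⟩
  obtain ⟨a1, a2⟩ := hκ u ha.1.start
  obtain ⟨b1, b2⟩ := hκ _ hb.1.start
  obtain ⟨c1, c2⟩ := hκ _ hb.1.fin
  have e : run K.perm (hub u) (κ u ++ (a ++ FreeGroup.invRev (κ (run K.perm u a)))) =
      hub (run K.perm u a) := by
    rw [run_append, run_append, a2]
    have := run_invRev K.perm (κ (run K.perm u a)) (hub (run K.perm u a))
    rwa [b2] at this
  have h3 := InGen.append _ _ _ ha.2 (by rw [e]; exact hb.2)
  refine InGen.homot _ _ _ h3 ?_
  rw [run_append, List.append_assoc a b]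
  refine homot_split (v := u) a1 a2 ha.1 b1 b2 (hb.1.append ?_)
  have := c1.inv
  rwa [c2] at this

lemma Good.inv (hκ : ∀ u ∉ C, Avoid K C (hub u) (κ u) ∧ run K.perm (hub u) (κ u) = u)
    {u : V} {a : Word X} (ha : Good K C M hub κ u a) :
    Good K C M hub κ (run K.perm u a) (FreeGroup.invRev a) := by
  refine ⟨ha.1.inv, ?_⟩
  obtain ⟨a1, a2⟩ := hκ u ha.1.start
  obtain ⟨b1, b2⟩ := hκ _ ha.1.fin
  have h1 := InGen.inv _ _ ha.2
  have e : run K.perm (hub u) (κ u ++ (a ++ FreeGroup.invRev (κ (run K.perm u a)))) =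
      hub (run K.perm u a) := by
    rw [run_append, run_append, a2]
    have := run_invRev K.perm (κ (run K.perm u a)) (hub (run K.perm u a))
    rwa [b2] at this
  rw [e, invRev_append, invRev_append, invRev_invRev, List.append_assoc] at h1
  rw [run_invRev]
  exact h1

lemma Good.homot (hκ : ∀ u ∉ C, Avoid K C (hub u) (κ u) ∧ run K.perm (hub u) (κ u) = u)
    {u : V} {a a' : Word X} (ha : Good K C M hub κ u a) (h : Homot K C u a a') :
    Good K C M hub κ u a' := by
  refine ⟨h.avoid_iff.1 ha.1, ?_⟩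
  obtain ⟨a1, a2⟩ := hκ u ha.1.start
  obtain ⟨b1, b2⟩ := hκ _ ha.1.fin
  refine InGen.homot _ _ _ ha.2 ?_
  rw [← h.run_eq]
  refine Homot.append_left _ a1 ?_
  rw [a2]
  refine Homot.append_right h _ ?_
  have := b1.inv
  rwa [b2] at this

lemma Good.of_letters (hκ : ∀ u ∉ C, Avoid K C (hub u) (κ u) ∧ run K.perm (hub u) (κ u) = u)
    (w : Word X) (u : V) (hw : Avoid K C u w)
    (hl : ∀ u ∉ C, ∀ l ∈ w, step K.perm u l ∉ C → Good K C M hub κ u [l]) :
    Good K C M hub κ u w := by
  induction w generalizing u with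
  | nil => exact Good.nil hκ hw
  | cons l w ih =>
    have h1 := hl u hw.1 l (List.mem_cons_self) hw.2.start
    exact Good.append hκ (a := [l]) h1
      (ih _ hw.2 (fun u hu l' hl' hs => hl u hu l' (List.mem_cons_of_mem _ hl') hs))

end Pool.Agent.LT
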