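import Pool.Agent.LT.Trans

set_option autoImplicit false

namespace Pool.Agent.LT

variable {X V : Type*} {K : LabComplex X V} {C : Set V}

lemma avoid_iff (v : V) (w : Word X) : Avoid K C v w ↔ ∀ p, p <+: w → run K.perm v p ∉ C := by
  induction w generalizing v with
  | nil =>
    constructor
    · intro h p hp
      rw [List.prefix_nil] at hp
      subst hp
      exact h
    · intro h
      exact h [] (List.prefix_rfl)
  | cons l w ih =>
    constructor
    · intro h p hp
      cases p with
      | nil => exact h.1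
      | cons l' p =>
        rw [List.cons_prefix_cons] at hp
        obtain ⟨rfl, hp⟩ := hp
        exact (ih _).1 h.2 p hp
    · intro h
      refine ⟨h [] (List.nil_prefix), (ih _).2 ?_⟩
      intro p hp
      exact h (l :: p) (by rw [List.cons_prefix_cons]; exact ⟨rfl, hp⟩)

/-- Splitting a path at a connecting path. -/
lemma homot_split {h v : V} {a b k c : Word X} (ha : Avoid K C h a)
    (hva : run K.perm h a = v) (hb : Avoid K C v b)
    {h' : V} (hk : Avoid K C h' k) (hk' : run K.perm h' k = run K.perm v b)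
    (hc : Avoid K C (run K.perm v b) c) :
    Homot K C h ((a ++ (b ++ FreeGroup.invRev k)) ++ (k ++ c)) (a ++ (b ++ c)) := by
  have e1 : Homot K C (run K.perm h (a ++ b)) ((FreeGroup.invRev k ++ k) ++ c) ([] ++ c) := by
    rw [run_append, hva, ← hk']
    refine Homot.append_right (Homot.cancel_inv hk) _ ?_
    rw [run_append, run_invRev, hk']
    exact hc
  have e2 := Homot.append_left (a ++ b) (ha.append (by rw [hva]; exact hb)) e1
  simp only [List.append_assoc, List.nil_append] at e2 ⊢
  exact e2

lemma inGen_word_of_hub (hub : V → V) (κ : V → Word X) (M : Set (V × Word X))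
    (P : V → Prop)
    (hκ : ∀ u ∉ C, P u → Avoid K C (hub u) (κ u) ∧ run K.perm (hub u) (κ u) = u)
    (w : Word X) (u : V)
    (hgen : ∀ u ∉ C, P u → ∀ l ∈ w, step K.perm u l ∉ C → P (step K.perm u l) ∧
      InGen K C M (hub u) (κ u ++ ([l] ++ FreeGroup.invRev (κ (step K.perm u l)))))
    (hu : P u) (hw : Avoid K C u w) :
    InGen K C M (hub u) (κ u ++ (w ++ FreeGroup.invRev (κ (run K.perm u w)))) := by
  induction w generalizing u with
  | nil =>
    obtain ⟨h1, h2⟩ := hκ u hw hu
    refine InGen.homot _ _ _ (InGen.nil _ h1.start) ?_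
    exact (Homot.inv_cancel h1).symm
  | cons l w ih =>
    have hs := hw.2.start
    obtain ⟨h0, h1⟩ := hgen u hw.1 hu l (List.mem_cons_self) hs
    have h2 := ih (step K.perm u l)
      (fun u hu hPu l' hl' => hgen u hu hPu l' (List.mem_cons_of_mem _ hl')) h0 hw.2
    obtain ⟨a1, a2⟩ := hκ u hw.1 hu
    obtain ⟨b1, b2⟩ := hκ _ hs h0
    have e : run K.perm (hub u) (κ u ++ ([l] ++ FreeGroup.invRev (κ (step K.perm u l)))) =
        hub (step K.perm u l) := by
      rw [run_append, run_append, a2]
      have := run_invRev K.perm (κ (step K.perm u l)) (hub (step K.perm u l))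
      rwa [b2] at this
    have h3 := InGen.append (K := K) (C := C) (M := M) _ _ _ h1 (by rw [e]; exact h2)
    refine InGen.homot _ _ _ h3 ?_
    have hend : Avoid K C (run K.perm u (l :: w)) (FreeGroup.invRev (κ (run K.perm u (l :: w)))) := by
      have hr := hw.fin
      have hP : P (run K.perm u (l :: w)) := by
        have : ∀ (w' : Word X) (u : V), (∀ u ∉ C, P u → ∀ l' ∈ w', step K.perm u l' ∉ C →
            P (step K.perm u l')) → P u → Avoid K C u w' → P (run K.perm u w') := by
          intro w' 
          induction w' with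
          | nil => intro u _ h _; exact h
          | cons l' w' ih' =>
            intro u hg hPu ha
            exact ih' _ (fun u hu hPu l'' hl'' => hg u hu hPu l'' (List.mem_cons_of_mem _ hl''))
              (hg u ha.1 hPu l' (List.mem_cons_self) ha.2.start) ha.2
        exact this (l :: w) u (fun u hu hPu l' hl' hs => (hgen u hu hPu l' hl' hs).1) hu hw
      obtain ⟨c1, c2⟩ := hκ _ hr hP
      have := c1.inv
      rwa [c2] at this
    exact homot_split (v := u) (b := [l]) a1 a2 ⟨hw.1, hs⟩ b1 b2 (hw.2.append hend)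

/-- Hub lemma. -/
lemma fgat_of_hub (hub : V → V) (κ : V → Word X) (M : Set (V × Word X)) (hM : M.Finite)
    (hκ : ∀ u ∉ C, Avoid K C (hub u) (κ u) ∧ run K.perm (hub u) (κ u) = u)
    (hgen : ∀ u ∉ C, ∀ x, K.perm x u ∉ C →
      InGen K C M (hub u) (κ u ++ ([(x, true)] ++ FreeGroup.invRev (κ (K.perm x u)))))
    (v : V) (hv : v ∉ C) : FGat K C v := by
  have hgen' : ∀ u ∉ C, ∀ l, step K.perm u l ∉ C →
      InGen K C M (hub u) (κ u ++ ([l] ++ FreeGroup.invRev (κ (step K.perm u l)))) := by
    rintro u hu ⟨x, b⟩ hl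
    cases b with
    | true => exact hgen u hu x hl
    | false =>
      simp only [step, Bool.false_eq_true, if_false] at hl ⊢
      have h1 := InGen.inv _ _ (hgen _ hl x (by simpa using hu))
      rw [Equiv.apply_symm_apply] at h1
      obtain ⟨a1, a2⟩ := hκ u hu
      obtain ⟨b1, b2⟩ := hκ _ hl
      have e : run K.perm (hub ((K.perm x).symm u)) (κ ((K.perm x).symm u) ++
          ([(x, true)] ++ FreeGroup.invRev (κ u))) = hub u := by
        rw [run_append, run_append, b2]
        have : run K.perm ((K.perm x).symm u) [(x, true)] = u := by simp [run, step]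
        rw [this]
        have := run_invRev K.perm (κ u) (hub u)
        rwa [a2] at this
      rw [e] at h1
      have e2 : FreeGroup.invRev (κ ((K.perm x).symm u) ++ ([(x, true)] ++ FreeGroup.invRev (κ u))) =
          κ u ++ ([(x, false)] ++ FreeGroup.invRev (κ ((K.perm x).symm u))) := by
        rw [invRev_append, invRev_append, invRev_invRev, List.append_assoc]
        rfl
      rwa [e2] at h1
  refine ⟨insert (hub v, κ v) M, hM.insert _, ?_⟩
  intro w hw hr
  have h1 : InGen K C M (hub v) (κ v ++ (w ++ FreeGroup.invRev (κ (run K.perm v w)))) :=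
    inGen_word_of_hub hub κ M (fun _ => True) (fun u hu _ => hκ u hu) w v
      (fun u hu _ l _ hl => ⟨trivial, hgen' u hu l hl⟩) trivial hw
  obtain ⟨a1, a2⟩ := hκ v hv
  have hm : InGen K C (insert (hub v, κ v) M) (hub v) (κ v) :=
    InGen.mem _ _ (Set.mem_insert _ _) a1
  have hmi := InGen.inv _ _ hm
  rw [a2] at hmi
  have h2 := InGen.mono (Set.subset_insert (hub v, κ v) M) h1
  rw [hr] at h2
  have e0 : run K.perm v (FreeGroup.invRev (κ v)) = hub v := by
    have := run_invRev K.perm (κ v) (hub v)
    rwa [a2] at this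
  have e1 : run K.perm (hub v) (κ v ++ (w ++ FreeGroup.invRev (κ v))) = hub v := by
    rw [run_append, run_append, a2, hr, e0]
  have h3 := InGen.append _ _ _ h2 (by rw [e1]; exact hm)
  have h4 := InGen.append _ _ _ hmi (by rw [e0]; exact h3)
  refine InGen.homot _ _ _ h4 ?_
  have f1 : Homot K C v (w ++ (FreeGroup.invRev (κ v) ++ κ v)) (w ++ []) := by
    refine Homot.append_left _ hw ?_
    rw [hr]
    have := Homot.cancel_inv a1
    rwa [a2] at this
  have hav : Avoid K C v (FreeGroup.invRev (κ v)) := by
    have := a1.inv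
    rwa [a2] at this
  have f2 : Homot K C v ((FreeGroup.invRev (κ v) ++ κ v) ++ (w ++ (FreeGroup.invRev (κ v) ++ κ v)))
      ([] ++ (w ++ (FreeGroup.invRev (κ v) ++ κ v))) := by
    refine Homot.append_right ?_ _ ?_
    · have := Homot.cancel_inv a1
      rwa [a2] at this
    · rw [run_append, e0, a2]
      refine hw.append ?_
      rw [hr]
      refine hav.append ?_
      rw [e0]
      exact a1
  rw [List.append_nil] at f1
  rw [List.nil_append] at f2
  have := f2.trans f1
  simpa only [List.append_assoc] using this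

/-- Canonical hubs: one vertex in each component of the complement of `C`. -/
lemma exists_hub (K : LabComplex X V) (C : Set V) : ∃ (hub : V → V) (κ : V → Word X),
    (∀ u ∉ C, Avoid K C (hub u) (κ u) ∧ run K.perm (hub u) (κ u) = u) ∧
    (∀ u w, Avoid K C u w → hub (run K.perm u w) = hub u) := by
  let S : Setoid V :=
    { r := fun u u' => u = u' ∨ ∃ w, Avoid K C u w ∧ run K.perm u w = u'
      iseqv := ⟨fun _ => Or.inl rfl, by
        rintro u u' (h | ⟨w, h1, h2⟩)
        · exact Or.inl h.symm
        · refine Or.inr ⟨FreeGroup.invRev w, ?_, ?_⟩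
          · rw [← h2]; exact h1.inv
          · rw [← h2]; exact run_invRev _ _ _, by
        rintro u u' u'' (h | ⟨w, h1, h2⟩) (h' | ⟨w', h1', h2'⟩)
        · exact Or.inl (h.trans h')
        · exact Or.inr ⟨w', by rw [h]; exact h1', by rw [h]; exact h2'⟩
        · exact Or.inr ⟨w, h1, by rw [h2, h']⟩
        · exact Or.inr ⟨w ++ w', h1.append (by rw [h2]; exact h1'), by rw [run_append, h2, h2']⟩⟩ }
  have hS : ∀ u : V, S.r (Quotient.out (Quotient.mk S u)) u := fun u => Quotient.mk_out u
  have hex : ∀ u : V, ∃ κ : Word X, u ∉ C →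
      Avoid K C (Quotient.out (Quotient.mk S u)) κ ∧
      run K.perm (Quotient.out (Quotient.mk S u)) κ = u := by
    intro u
    rcases hS u with h | ⟨w, h1, h2⟩
    · refine ⟨[], fun hu => ⟨?_, h⟩⟩
      rw [h]; exact hu
    · exact ⟨w, fun _ => ⟨h1, h2⟩⟩
  choose κ hκ using hex
  refine ⟨fun u => Quotient.out (Quotient.mk S u), κ, hκ, ?_⟩
  intro u w hw
  have : Quotient.mk S (run K.perm u w) = Quotient.mk S u :=
    Quotient.sound (Setoid.symm (Or.inr ⟨w, hw, rfl⟩))
  simp only [this]

/-- A connected locally finite graph minus a finite set has finitely many components. -/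
lemma exists_finite_reps [Finite X] (K : LabComplex X V) (B : Set V) (hB : B.Finite) (v₀ : V) :
    ∃ T : Set V, T.Finite ∧ (∀ t ∈ T, t ∉ B) ∧
      ∀ w, run K.perm v₀ w ∉ B →
        ∃ t ∈ T, ∃ w', Avoid K B t w' ∧ run K.perm t w' = run K.perm v₀ w := by
  refine ⟨(insert v₀ (Set.image2 (fun b l => step K.perm b l) B Set.univ)) \ B, ?_, ?_, ?_⟩
  · refine Set.Finite.subset ?_ Set.sdiff_subset
    exact (Set.Finite.image2 _ hB Set.finite_univ).insert _
  · intro t ht; exact ht.2
  · intro w
    induction w using List.reverseRecOn with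
    | nil =>
      intro h
      exact ⟨v₀, ⟨Set.mem_insert _ _, h⟩, [], h, rfl⟩
    | append_singleton w l ih =>
      intro h
      rw [run_append] at h ⊢
      by_cases hw : run K.perm v₀ w ∈ B
      · exact ⟨step K.perm (run K.perm v₀ w) l,
          ⟨Set.mem_insert_of_mem _ ⟨_, hw, l, trivial, rfl⟩, h⟩, [], h, rfl⟩
      · obtain ⟨t, ht, w', h1, h2⟩ := ih hw
        refine ⟨t, ht, w' ++ [l], h1.append ?_, by rw [run_append, h2]⟩
        rw [h2]
        exact ⟨hw, h⟩

end Pool.Agent.LT
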