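import Pool.Agent.LT.Hub

set_option autoImplicit false

namespace Pool.Agent.LT

variable {X₁ X₂ V : Type*}

lemma run_injective {X : Type*} (π : X → Equiv.Perm V) (w : Word X) :
    Function.Injective (fun v => run π v w) := by
  intro v v' h
  have h1 := run_invRev π w v
  have h2 := run_invRev π w v'
  simp only at h
  rw [h] at h1
  exact h1.symm.trans h2

lemma finite_bad {X : Type*} (π : X → Equiv.Perm V) (Φ : Set (Word X)) (hΦ : Φ.Finite)
    (C : Set V) (hC : C.Finite) : {u : V | ∃ p ∈ Φ, run π u p ∈ C}.Finite := by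
  have : {u : V | ∃ p ∈ Φ, run π u p ∈ C} = ⋃ p ∈ Φ, (fun v => run π v p) ⁻¹' C := by
    ext u; simp
  rw [this]
  exact hΦ.biUnion fun p _ => hC.preimage (run_injective π p).injOn

lemma finite_prefixes {X Y : Type*} [Finite Y] (τ : Y → Word X) :
    {p : Word X | ∃ y, p <+: τ y}.Finite := by
  have : {p : Word X | ∃ y, p <+: τ y} = ⋃ y : Y, {p | p <+: τ y} := by
    ext p; simp
  rw [this]
  refine Set.finite_iUnion fun y => ?_
  have : {p : Word X | p <+: τ y} = {p | p ∈ (τ y).inits} := by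
    ext p; simp
  rw [this]
  exact List.finite_toSet _

theorem tame_transfer [Finite X₁] [Finite X₂] (K₁ : LabComplex X₁ V) (K₂ : LabComplex X₂ V)
    (τ : X₁ → Word X₂) (σ : X₂ → Word X₁)
    (hτ : ∀ x v, run K₂.perm v (τ x) = K₁.perm x v)
    (hσ : ∀ x v, run K₁.perm v (σ x) = K₂.perm x v)
    (Φ : Set (Word X₂)) (hΦ : Φ.Finite)
    (hrel : ∀ (C : Set V) (u : V), (∀ p ∈ Φ, run K₂.perm u p ∉ C) →
      ∀ r ∈ K₁.rel, Homot K₂ C u (tr τ r) [])
    (hlet : ∀ (C : Set V) (u : V), (∀ p ∈ Φ, run K₂.perm u p ∉ C) →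
      ∀ x, Homot K₂ C u [(x, true)] (tr τ (σ x)))
    (hconn : ∀ u v, ∃ w, run K₁.perm u w = v)
    (h₁ : ∀ C : Set V, C.Finite → ∀ v ∉ C, FGat K₁ C v)
    (C : Set V) (hC : C.Finite) (v : V) (hv : v ∉ C) : FGat K₂ C v := by
  classical
  -- enlarged sets
  obtain ⟨Φ', hΦ'def⟩ : ∃ Φ' : Set (Word X₂),
      Φ' = insert [] (Φ ∪ {p : Word X₂ | ∃ x, p <+: τ x}) := ⟨_, rfl⟩
  have hΦ' : Φ'.Finite := by
    rw [hΦ'def]; exact (hΦ.union (finite_prefixes τ)).insert _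
  obtain ⟨C1, hC1def⟩ : ∃ C1 : Set V, C1 = {u : V | ∃ p ∈ Φ', run K₂.perm u p ∈ C} := ⟨_, rfl⟩
  have hC1 : C1.Finite := by rw [hC1def]; exact finite_bad _ _ hΦ' _ hC
  have hCC1 : C ⊆ C1 := by
    intro u hu
    rw [hC1def]
    exact ⟨[], by rw [hΦ'def]; exact Set.mem_insert _ _, hu⟩
  have hgood1 : ∀ u ∉ C1, ∀ p ∈ Φ', run K₂.perm u p ∉ C := by
    intro u hu p hp h
    apply hu
    rw [hC1def]
    exact ⟨p, hp, h⟩
  have hΦsub : Φ ⊆ Φ' := by
    intro p hp; rw [hΦ'def]; exact Set.mem_insert_of_mem _ (Or.inl hp)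
  have h1 : ∀ u ∉ C1, ∀ x, K₁.perm x u ∉ C1 → Avoid K₂ C u (τ x) := by
    intro u hu x _
    rw [avoid_iff]
    intro p hp
    exact hgood1 u hu p (by rw [hΦ'def]; exact Set.mem_insert_of_mem _ (Or.inr ⟨x, hp⟩))
  have h2 : ∀ u, ∀ r ∈ K₁.rel, Avoid K₁ C1 u r → Homot K₂ C u (tr τ r) [] := by
    intro u r hr ha
    exact hrel C u (fun p hp => hgood1 u ha.start p (hΦsub hp)) r hr
  obtain ⟨Ψ, hΨdef⟩ : ∃ Ψ : Set (Word X₁),
      Ψ = insert [] {p : Word X₁ | ∃ x, p <+: σ x} := ⟨_, rfl⟩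
  have hΨ : Ψ.Finite := by rw [hΨdef]; exact (finite_prefixes σ).insert _
  obtain ⟨C2, hC2def⟩ : ∃ C2 : Set V, C2 = {u : V | ∃ p ∈ Ψ, run K₁.perm u p ∈ C1} := ⟨_, rfl⟩
  have hC2 : C2.Finite := by rw [hC2def]; exact finite_bad _ _ hΨ _ hC1
  have hC1C2 : C1 ⊆ C2 := by
    intro u hu
    rw [hC2def]
    exact ⟨[], by rw [hΨdef]; exact Set.mem_insert _ _, hu⟩
  have h3 : ∀ u ∉ C2, ∀ x, Avoid K₁ C1 u (σ x) := by
    intro u hu x
    rw [avoid_iff]
    intro p hp h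
    apply hu
    rw [hC2def]
    exact ⟨p, by rw [hΨdef]; exact Set.mem_insert_of_mem _ ⟨x, hp⟩, h⟩
  -- hubs
  obtain ⟨hub1, κ1, hκ1, hhub1⟩ := exists_hub K₁ C1
  obtain ⟨T, hT, hTC, hTr⟩ := exists_finite_reps K₁ C1 hC1 v
  have hhubs : (hub1 '' C1ᶜ).Finite := by
    refine (hT.image hub1).subset ?_
    rintro _ ⟨u, hu, rfl⟩
    obtain ⟨w, hw⟩ := hconn v u
    obtain ⟨t, ht, w', ha, hr⟩ := hTr w (by rw [hw]; exact hu)
    refine ⟨t, ht, ?_⟩
    have := hhub1 t w' ha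
    rw [hr, hw] at this
    exact this.symm
  have hhubC : ∀ h ∈ hub1 '' C1ᶜ, h ∉ C1 := by
    rintro _ ⟨u, hu, rfl⟩
    exact (hκ1 u hu).1.start
  -- generators
  have hMex : ∀ h : V, ∃ M : Set (V × Word X₁), M.Finite ∧ (h ∉ C1 →
      ∀ w, Avoid K₁ C1 h w → run K₁.perm h w = h → InGen K₁ C1 M h w) := by
    intro h
    by_cases hh : h ∈ C1
    · exact ⟨∅, Set.finite_empty, fun h' => absurd hh h'⟩
    · obtain ⟨M, hM, hM'⟩ := h₁ C1 hC1 h hh
      exact ⟨M, hM, fun _ => hM'⟩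
  choose Mh hMhfin hMh using hMex
  let hub : V → V := fun u => if u ∈ C2 then u else hub1 u
  let κ : V → Word X₂ := fun u => if u ∈ C2 then [] else tr τ (κ1 u)
  have hκ : ∀ u ∉ C, Avoid K₂ C (hub u) (κ u) ∧ run K₂.perm (hub u) (κ u) = u := by
    intro u hu
    by_cases hu2 : u ∈ C2
    · simp only [hub, κ, if_pos hu2]
      exact ⟨hu, rfl⟩
    · simp only [hub, κ, if_neg hu2]
      obtain ⟨a1, a2⟩ := hκ1 u (fun h => hu2 (hC1C2 h))
      refine ⟨avoid_tr hτ hCC1 h1 a1, ?_⟩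
      rw [run_tr hτ, a2]
  let Ma : Set (V × Word X₂) := ⋃ h ∈ hub1 '' C1ᶜ, (fun m : V × Word X₁ => (m.1, tr τ m.2)) '' Mh h
  have hMa : Ma.Finite := hhubs.biUnion fun h _ => (hMhfin h).image _
  let Mb : Set (V × Word X₂) := Set.image2
    (fun (u : V) (x : X₂) => (hub u, κ u ++ ([(x, true)] ++ FreeGroup.invRev (κ (K₂.perm x u)))))
    (C2 ∪ ⋃ x : X₂, (fun u => K₂.perm x u) ⁻¹' C2) Set.univ
  have hMb : Mb.Finite := by
    refine Set.Finite.image2 _ (hC2.union (Set.finite_iUnion fun x => ?_)) Set.finite_univ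
    exact hC2.preimage (K₂.perm x).injective.injOn
  refine fgat_of_hub hub κ (Ma ∪ Mb) (hMa.union hMb) hκ ?_ v hv
  intro u hu x hxu
  have hav : Avoid K₂ C (hub u) (κ u ++ ([(x, true)] ++ FreeGroup.invRev (κ (K₂.perm x u)))) := by
    obtain ⟨a1, a2⟩ := hκ u hu
    obtain ⟨b1, b2⟩ := hκ _ hxu
    refine a1.append ?_
    rw [a2]
    refine Avoid.append (w₁ := [(x, true)]) ⟨hu, by simpa [step, Avoid] using hxu⟩ ?_
    have := b1.inv
    rw [b2] at this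
    simpa [run, step] using this
  by_cases hcase : u ∈ C2 ∨ K₂.perm x u ∈ C2
  · refine InGen.mem _ _ (Or.inr ?_) hav
    refine ⟨u, ?_, x, trivial, rfl⟩
    rcases hcase with h | h
    · exact Or.inl h
    · exact Or.inr (Set.mem_iUnion.2 ⟨x, h⟩)
  · push Not at hcase
    obtain ⟨hu2, hxu2⟩ := hcase
    have hu1 : u ∉ C1 := fun h => hu2 (hC1C2 h)
    have hxu1 : K₂.perm x u ∉ C1 := fun h => hxu2 (hC1C2 h)
    have ehub : hub u = hub1 u := by simp only [hub, if_neg hu2]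
    have eκ : κ u = tr τ (κ1 u) := by simp only [κ, if_neg hu2]
    have eκ' : κ (K₂.perm x u) = tr τ (κ1 (K₂.perm x u)) := by simp only [κ, if_neg hxu2]
    rw [ehub, eκ, eκ']
    obtain ⟨a1, a2⟩ := hκ1 u hu1
    obtain ⟨b1, b2⟩ := hκ1 _ hxu1
    have hsx := h3 u hu2 x
    have hhx : hub1 (K₂.perm x u) = hub1 u := by
      have := hhub1 u (σ x) hsx
      rwa [hσ] at this
    have hloopA : Avoid K₁ C1 (hub1 u) (κ1 u ++ (σ x ++ FreeGroup.invRev (κ1 (K₂.perm x u)))) := by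
      refine a1.append ?_
      rw [a2]
      refine hsx.append ?_
      rw [hσ]
      have := b1.inv
      rwa [b2] at this
    have hloopR : run K₁.perm (hub1 u) (κ1 u ++ (σ x ++ FreeGroup.invRev (κ1 (K₂.perm x u)))) =
        hub1 u := by
      rw [run_append, run_append, a2, hσ]
      have := run_invRev K₁.perm (κ1 (K₂.perm x u)) (hub1 (K₂.perm x u))
      rw [b2] at this
      rw [this, hhx]
    have hgen := hMh (hub1 u) (hhubC _ ⟨u, hu1, rfl⟩) _ hloopA hloopR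
    have hgen2 := inGen_tr hτ hCC1 h1 h2 hgen
    have hgen3 : InGen K₂ C (Ma ∪ Mb) (hub1 u)
        (tr τ (κ1 u ++ (σ x ++ FreeGroup.invRev (κ1 (K₂.perm x u))))) := by
      refine hgen2.mono ?_
      refine subset_trans ?_ Set.subset_union_left
      exact Set.subset_biUnion_of_mem (u := fun h => (fun m : V × Word X₁ => (m.1, tr τ m.2)) '' Mh h)
        (⟨u, hu1, rfl⟩ : hub1 u ∈ hub1 '' C1ᶜ)
    refine InGen.homot _ _ _ hgen3 ?_
    rw [tr_append, tr_append, tr_invRev]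
    refine Homot.append_left _ (avoid_tr hτ hCC1 h1 a1) ?_
    rw [run_tr hτ, a2]
    refine Homot.append_right (hlet C u (fun p hp => hgood1 u hu1 p (hΦsub hp)) x).symm _ ?_
    rw [run_tr hτ, hσ]
    have := (avoid_tr hτ hCC1 h1 b1).inv
    rwa [run_tr hτ, b2] at this

end Pool.Agent.LT
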