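import Pool.Agent.LT.Pres

set_option autoImplicit false

namespace Pool.Agent.LT

universe u

variable {X₁ X₂ : Type*} {G : Type*} [Group G]

lemma lift_tr {φ₁ : X₁ → G} {φ₂ : X₂ → G} {τ : X₁ → Word X₂}
    (hτ : ∀ x, FreeGroup.lift φ₂ (FreeGroup.mk (τ x)) = φ₁ x) (w : Word X₁) :
    FreeGroup.lift φ₂ (FreeGroup.mk (tr τ w)) = FreeGroup.lift φ₁ (FreeGroup.mk w) := by
  induction w with
  | nil => 
    change FreeGroup.lift φ₂ 1 = FreeGroup.lift φ₁ 1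
    rw [map_one, map_one]
  | cons l w ih =>
    obtain ⟨x, b⟩ := l
    have e : (FreeGroup.mk ((x, b) :: w)) = FreeGroup.mk [(x, b)] * FreeGroup.mk w := rfl
    rw [tr_cons, ← FreeGroup.mul_mk, map_mul, ih, e, map_mul]
    congr 1
    cases b with
    | true => simp [trL, hτ]
    | false =>
      change FreeGroup.lift φ₂ (FreeGroup.mk (FreeGroup.invRev (τ x))) = _
      rw [← FreeGroup.inv_mk, map_inv, hτ]
      simp

theorem indep [Finite X₁] [Finite X₂] (φ₁ : X₁ → G) (R₁ : Set (Word X₁))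
    (hR₁ : ∀ r ∈ R₁, FreeGroup.lift φ₁ (FreeGroup.mk r) = 1) (hfin₁ : R₁.Finite)
    (hsurj₁ : Function.Surjective (FreeGroup.lift φ₁))
    (φ₂ : X₂ → G) (R₂ : Set (Word X₂))
    (hR₂ : ∀ r ∈ R₂, FreeGroup.lift φ₂ (FreeGroup.mk r) = 1)
    (hsurj₂ : Function.Surjective (FreeGroup.lift φ₂))
    (hker₂ : (FreeGroup.lift φ₂).ker ≤ Subgroup.normalClosure (FreeGroup.mk '' R₂))
    (V : Type u) [MulAction G V] [MulAction.IsPretransitive G V]
    (h₁ : ∀ C : Set V, C.Finite → ∀ v ∉ C, FGat (actComplex φ₁ R₁ hR₁ V) C v)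
    (C : Set V) (hC : C.Finite) (v : V) (hv : v ∉ C) : FGat (actComplex φ₂ R₂ hR₂ V) C v := by
  have hex1 : ∀ x : X₁, ∃ w : Word X₂, FreeGroup.lift φ₂ (FreeGroup.mk w) = φ₁ x := by
    intro x
    obtain ⟨g, hg⟩ := hsurj₂ (φ₁ x)
    obtain ⟨w, rfl⟩ := Quot.exists_rep g
    exact ⟨w, hg⟩
  have hex2 : ∀ x : X₂, ∃ w : Word X₁, FreeGroup.lift φ₁ (FreeGroup.mk w) = φ₂ x := by
    intro x
    obtain ⟨g, hg⟩ := hsurj₁ (φ₂ x)
    obtain ⟨w, rfl⟩ := Quot.exists_rep g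
    exact ⟨w, hg⟩
  choose τ hτ using hex1
  choose σ hσ using hex2
  have hΦ1 : ∀ r : Word X₁, ∃ Φ : Set (Word X₂), Φ.Finite ∧ (r ∈ R₁ →
      ∀ (V : Type u) (K : LabComplex X₂ V), K.rel = R₂ →
      ∀ (C : Set V) (v : V), (∀ p ∈ Φ, run K.perm v p ∉ C) → Homot K C v (tr τ r) []) := by
    intro r
    by_cases hr : r ∈ R₁
    · obtain ⟨Φ, h1, h2⟩ := homot_finite_support R₂ (tr τ r) []
        (homot_of_lift_eq hker₂ _ _ (by rw [lift_tr hτ, hR₁ r hr]; rfl))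
      exact ⟨Φ, h1, fun _ => h2⟩
    · exact ⟨∅, Set.finite_empty, fun h => absurd h hr⟩
  have hΦ2 : ∀ x : X₂, ∃ Φ : Set (Word X₂), Φ.Finite ∧ 
      ∀ (V : Type u) (K : LabComplex X₂ V), K.rel = R₂ →
      ∀ (C : Set V) (v : V), (∀ p ∈ Φ, run K.perm v p ∉ C) →
        Homot K C v [(x, true)] (tr τ (σ x)) := by
    intro x
    exact homot_finite_support R₂ _ _
        (homot_of_lift_eq hker₂ _ _ (by rw [lift_tr hτ, hσ]; simp))
  choose Φ1 hΦ1fin hΦ1 using hΦ1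
  choose Φ2 hΦ2fin hΦ2 using hΦ2
  refine tame_transfer (actComplex φ₁ R₁ hR₁ V) (actComplex φ₂ R₂ hR₂ V) τ σ ?_ ?_
    ((⋃ r ∈ R₁, Φ1 r) ∪ ⋃ x, Φ2 x) ?_ ?_ ?_ ?_ h₁ C hC v hv
  · intro x v
    change run (actPerm φ₂ V) v (τ x) = actPerm φ₁ V x v
    rw [run_actPerm, hτ]
    rfl
  · intro x v
    change run (actPerm φ₁ V) v (σ x) = actPerm φ₂ V x v
    rw [run_actPerm, hσ]
    rfl
  · exact (hfin₁.biUnion fun r _ => hΦ1fin r).union (Set.finite_iUnion fun x => hΦ2fin x)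
  · intro C u hu r hr
    exact hΦ1 r hr V _ rfl C u fun p hp => hu p (Or.inl (Set.mem_biUnion hr hp))
  · intro C u hu x
    exact hΦ2 x V _ rfl C u fun p hp => hu p (Or.inr (Set.mem_iUnion.2 ⟨x, hp⟩))
  · intro u v
    obtain ⟨g, hg⟩ := MulAction.exists_smul_eq G u v
    obtain ⟨a, ha⟩ := hsurj₁ g⁻¹
    obtain ⟨w, rfl⟩ := Quot.exists_rep a
    refine ⟨w, ?_⟩
    change run (actPerm φ₁ V) u w = v
    rw [run_actPerm]
    change (FreeGroup.lift φ₁ (Quot.mk _ w))⁻¹ • u = v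
    rw [ha, inv_inv, hg]

theorem TameWith.change {G : Type*} [Group G] (P P' : FinPres G) (H : Subgroup G)
    (h : TameWith P H) : TameWith P' H := by
  intro C hC v
  rw [fg_iff_fgat]
  have := P.finX
  have := P'.finX
  exact indep P.φ P.R P.lift_rel P.finR P.surj P'.φ P'.R P'.lift_rel P'.surj P'.ker.le (G ⧸ H)
    (fun C hC v hv => (fg_iff_fgat ⟨v, hv⟩).1 (h C hC ⟨v, hv⟩)) C hC v.1 v.2

end Pool.Agent.LT
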