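import Pool.Agent.LT.Final

set_option autoImplicit false

namespace Pool.Agent.LT

universe u

lemma lift_emb {X Z : Type*} {G : Type*} [Group G] (f : X → Z) (φ : X → G) (ψ : Z → G)
    (h : ∀ x, ψ (f x) = φ x) (w : Word X) :
    FreeGroup.lift ψ (FreeGroup.mk (emb f w)) = FreeGroup.lift φ (FreeGroup.mk w) := by
  rw [← tr_eq_emb]
  refine lift_tr ?_ w
  intro x
  simp [h]

lemma subgroup_fg_map {G G' : Type*} [Group G] [Group G'] {S : Subgroup G} (hS : S.FG)
    (f : G →* G') : (S.map f).FG := by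
  classical
  obtain ⟨T, hT⟩ := hS
  refine ⟨T.image f, ?_⟩
  rw [Finset.coe_image, ← hT, MonoidHom.map_closure]

section

variable {G : Type u} [Group G] (N : Subgroup G) [N.Normal]

/-- The base map of cosets. -/
def pmap (S : Subgroup G) : (G ⧸ S) → ((G ⧸ N) ⧸ S.map (QuotientGroup.mk' N)) :=
  fun v => Quotient.liftOn' v (fun g => (((g : G ⧸ N)) : (G ⧸ N) ⧸ S.map (QuotientGroup.mk' N)))
    (by
      intro a b hab
      rw [QuotientGroup.leftRel_apply] at hab
      rw [QuotientGroup.eq]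
      exact ⟨a⁻¹ * b, hab, by simp⟩)

lemma pmap_mk (S : Subgroup G) (g : G) :
    pmap N S (g : G ⧸ S) = ((g : G ⧸ N) : (G ⧸ N) ⧸ S.map (QuotientGroup.mk' N)) := rfl

lemma pmap_smul (S : Subgroup G) (g : G) (v : G ⧸ S) :
    pmap N S (g • v) = (g : G ⧸ N) • pmap N S v := by
  induction v using QuotientGroup.induction_on with
  | H a => rfl

lemma pmap_surj (S : Subgroup G) : Function.Surjective (pmap N S) := by
  intro w
  induction w using QuotientGroup.induction_on with
  | H a =>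
    induction a using QuotientGroup.induction_on with
    | H a => exact ⟨(a : G ⧸ S), rfl⟩

lemma pmap_fibre (S : Subgroup G) (v v' : G ⧸ S) (h : pmap N S v = pmap N S v') :
    ∃ n : N, (n : G) • v = v' := by
  induction v using QuotientGroup.induction_on with
  | H a =>
    induction v' using QuotientGroup.induction_on with
    | H b =>
      rw [pmap_mk, pmap_mk, QuotientGroup.eq] at h
      obtain ⟨s, hs, hs'⟩ := h
      have h1 : ((s : G) : G ⧸ N) = ((a⁻¹ * b : G) : G ⧸ N) := by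
        rw [QuotientGroup.mk_mul, QuotientGroup.mk_inv]; exact hs'
      rw [QuotientGroup.eq] at h1
      -- s⁻¹ a⁻¹ b ∈ N
      refine ⟨⟨a * s * (s⁻¹ * (a⁻¹ * b)) * (a * s)⁻¹, ?_⟩, ?_⟩
      · exact Subgroup.Normal.conj_mem inferInstance _ h1 (a * s)
      · change (((a * s * (s⁻¹ * (a⁻¹ * b)) * (a * s)⁻¹) * a : G) : G ⧸ S) = (b : G ⧸ S)
        rw [QuotientGroup.eq]
        have : (a * s * (s⁻¹ * (a⁻¹ * b)) * (a * s)⁻¹ * a)⁻¹ * b = s := by group
        rw [this]
        exact hs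

lemma stabilizer_fg (hfgip : ∀ S : Subgroup G, S.FG → (N ⊓ S).FG) (S : Subgroup G) (hS : S.FG)
    (v : G ⧸ S) : (MulAction.stabilizer N v).FG := by
  induction v using QuotientGroup.induction_on with
  | H g =>
    have h1 : (S.map (MulAut.conj g).toMonoidHom).FG := subgroup_fg_map hS _
    have h2 := hfgip _ h1
    have h3 : MulAction.stabilizer N (g : G ⧸ S) =
        (N ⊓ S.map (MulAut.conj g).toMonoidHom).subgroupOf N := by
      ext n
      rw [MulAction.mem_stabilizer_iff, Subgroup.mem_subgroupOf]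
      change (((n : G) * g : G) : G ⧸ S) = (g : G ⧸ S) ↔ _
      rw [QuotientGroup.eq]
      constructor
      · intro h
        refine ⟨n.2, g⁻¹ * (n : G) * g, ?_, ?_⟩
        · have := inv_mem h
          have e : (((n : G) * g)⁻¹ * g)⁻¹ = g⁻¹ * (n : G) * g := by group
          rwa [e] at this
        · simp; group
      · rintro ⟨_, s, hs, hs'⟩
        have e : ((n : G) * g)⁻¹ * g = s⁻¹ := by
          have : (n : G) = g * s * g⁻¹ := by rw [← hs']; simp
          rw [this]; group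
        rw [e]
        exact inv_mem hs
    rw [h3]
    rw [← Group.fg_iff_subgroup_fg] at h2 ⊢
    have := h2
    exact Group.fg_of_surjective (f := (Subgroup.subgroupOfEquivOfLe
      (inf_le_left : N ⊓ S.map (MulAut.conj g).toMonoidHom ≤ N)).symm.toMonoidHom)
      (Subgroup.subgroupOfEquivOfLe _).symm.surjective

end

theorem main {G : Type u} [Group G] (N : Subgroup G) [N.Normal]
    (hN : LocallyTame N) (hQ : LocallyTame (G ⧸ N))
    (hfgip : ∀ S : Subgroup G, S.FG → (N ⊓ S).FG) (P : FinPres G) (S : Subgroup G) (hS : S.FG) :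
    TameWith P S := by
  classical
  obtain ⟨PN⟩ := hN.1
  obtain ⟨PQ⟩ := hQ.1
  have := PN.finX
  have := PQ.finX
  have := P.finX
  -- generators of `G`
  let φ : PN.X ⊕ PQ.X → G := Sum.elim (fun x => (PN.φ x : G)) (fun y => (PQ.φ y).out)
  have hφl : ∀ w : Word PN.X, FreeGroup.lift φ (FreeGroup.mk (emb Sum.inl w)) =
      ((FreeGroup.lift PN.φ (FreeGroup.mk w) : N) : G) := by
    intro w
    rw [lift_emb Sum.inl (fun x => (PN.φ x : G)) φ (fun x => rfl)]
    have : FreeGroup.lift (fun x => (PN.φ x : G)) = N.subtype.comp (FreeGroup.lift PN.φ) := by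
      ext x; simp
    rw [this]; rfl
  have hφr : ∀ w : Word PQ.X,
      ((FreeGroup.lift φ (FreeGroup.mk (emb Sum.inr w)) : G) : G ⧸ N) =
      FreeGroup.lift PQ.φ (FreeGroup.mk w) := by
    intro w
    rw [lift_emb Sum.inr (fun y => (PQ.φ y).out) φ (fun x => rfl)]
    have : (QuotientGroup.mk' N).comp (FreeGroup.lift (fun y => (PQ.φ y).out)) =
        FreeGroup.lift PQ.φ := by
      ext x; simp
    rw [← this]; rfl
  have hwordN : ∀ g : G, g ∈ N → ∃ w : Word PN.X,
      FreeGroup.lift φ (FreeGroup.mk (emb Sum.inl w)) = g := by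
    intro g hg
    obtain ⟨a, ha⟩ := PN.surj ⟨g, hg⟩
    obtain ⟨w, rfl⟩ := Quot.exists_rep a
    refine ⟨w, ?_⟩
    rw [hφl]
    exact congrArg Subtype.val ha
  have hsurj : Function.Surjective (FreeGroup.lift φ) := by
    intro g
    obtain ⟨b, hb⟩ := PQ.surj (g : G ⧸ N)
    obtain ⟨b, rfl⟩ := Quot.exists_rep b
    have h1 : ((FreeGroup.lift φ (FreeGroup.mk (emb Sum.inr b)) : G) : G ⧸ N) = (g : G ⧸ N) := by
      rw [hφr]; exact hb
    rw [QuotientGroup.eq] at h1
    obtain ⟨w, hw⟩ := hwordN _ h1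
    refine ⟨FreeGroup.mk (emb Sum.inr b) * FreeGroup.mk (emb Sum.inl w), ?_⟩
    rw [map_mul, hw]; group
  -- words for the squares
  have hsq : ∀ (s : PN.X × Bool) (t : PQ.X × Bool), ∃ w : Word PN.X,
      FreeGroup.lift φ (FreeGroup.mk (emb Sum.inl w)) =
      (FreeGroup.lift φ (FreeGroup.mk [(Sum.inr t.1, t.2)]))⁻¹ *
        FreeGroup.lift φ (FreeGroup.mk [(Sum.inl s.1, s.2)]) *
        FreeGroup.lift φ (FreeGroup.mk [(Sum.inr t.1, t.2)]) := by
    intro s t
    apply hwordN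
    have h1 : FreeGroup.lift φ (FreeGroup.mk [(Sum.inl s.1, s.2)]) ∈ N := by
      have := hφl [s]
      rw [emb_cons, emb_nil] at this
      rw [this]
      exact Subtype.property _
    have := Subgroup.Normal.conj_mem (inferInstance : N.Normal) _ h1
      (FreeGroup.lift φ (FreeGroup.mk [(Sum.inr t.1, t.2)]))⁻¹
    rwa [inv_inv] at this
  choose n hn using hsq
  have hm : ∀ r : Word PQ.X, ∃ w : Word PN.X, r ∈ PQ.R →
      FreeGroup.lift φ (FreeGroup.mk (emb Sum.inl w)) =
        FreeGroup.lift φ (FreeGroup.mk (emb Sum.inr r)) := by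
    intro r
    by_cases hr : r ∈ PQ.R
    · obtain ⟨w, hw⟩ := hwordN (FreeGroup.lift φ (FreeGroup.mk (emb Sum.inr r))) (by
        rw [← QuotientGroup.eq_one_iff, hφr]
        exact PQ.lift_rel r hr)
      exact ⟨w, fun _ => hw⟩
    · exact ⟨[], fun h => absurd h hr⟩
  choose m hm using hm
  let sq : (PN.X × Bool) × (PQ.X × Bool) → Word (PN.X ⊕ PQ.X) := fun st =>
    [(Sum.inl st.1.1, st.1.2), (Sum.inr st.2.1, st.2.2)] ++
      FreeGroup.invRev ([(Sum.inr st.2.1, st.2.2)] ++ emb Sum.inl (n st.1 st.2))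
  let lf : Word PQ.X → Word (PN.X ⊕ PQ.X) := fun r =>
    emb Sum.inr r ++ FreeGroup.invRev (emb Sum.inl (m r))
  let R : Set (Word (PN.X ⊕ PQ.X)) := (emb Sum.inl '' PN.R) ∪ Set.range sq ∪ (lf '' PQ.R)
  have hRfin : R.Finite :=
    ((PN.finR.image _).union (Set.finite_range sq)).union (PQ.finR.image _)
  have hR : ∀ r ∈ R, FreeGroup.lift φ (FreeGroup.mk r) = 1 := by
    rintro r ((⟨r, hr, rfl⟩ | ⟨⟨s, t⟩, rfl⟩) | ⟨r, hr, rfl⟩)
    · rw [hφl, PN.lift_rel r hr]; rfl
    · change FreeGroup.lift φ (FreeGroup.mk (([(Sum.inl s.1, s.2)] ++ [(Sum.inr t.1, t.2)]) ++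
        FreeGroup.invRev ([(Sum.inr t.1, t.2)] ++ emb Sum.inl (n s t)))) = 1
      rw [← FreeGroup.mul_mk, ← FreeGroup.mul_mk, ← FreeGroup.inv_mk, ← FreeGroup.mul_mk,
        map_mul, map_mul, map_inv, map_mul, hn]
      group
    · change FreeGroup.lift φ (FreeGroup.mk (emb Sum.inr r ++
        FreeGroup.invRev (emb Sum.inl (m r)))) = 1
      rw [← FreeGroup.mul_mk, ← FreeGroup.inv_mk, map_mul, map_inv, hm r hr, mul_inv_cancel]
  let E : ExtData PN.X PQ.X (G ⧸ S) ((G ⧸ N) ⧸ S.map (QuotientGroup.mk' N)) :=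
    { KN := actComplex PN.φ PN.R PN.lift_rel (G ⧸ S)
      KQ := cover PQ (S.map (QuotientGroup.mk' N))
      KA := actComplex φ R hR (G ⧸ S)
      p := pmap N S
      n := n
      m := m
      perm_inl := fun x v => rfl
      p_inl := fun x v => by
        change pmap N S (((PN.φ x)⁻¹ : N) • v) = pmap N S v
        have : (((PN.φ x)⁻¹ : N) • v) = (((PN.φ x)⁻¹ : N) : G) • v := rfl
        rw [this, pmap_smul]
        have h1 : ((((PN.φ x)⁻¹ : N) : G) : G ⧸ N) = 1 :=
          (QuotientGroup.eq_one_iff _).2 (Subtype.property _)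
        rw [h1, one_smul]
      p_inr := fun y v => by
        change pmap N S (((PQ.φ y).out : G)⁻¹ • v) = (PQ.φ y)⁻¹ • pmap N S v
        rw [pmap_smul, QuotientGroup.mk_inv, QuotientGroup.out_eq']
      p_surj := pmap_surj N S
      fibre := fun v v' h => by
        obtain ⟨g, hg⟩ := pmap_fibre N S v v' h
        obtain ⟨a, ha⟩ := PN.surj g⁻¹
        obtain ⟨w, rfl⟩ := Quot.exists_rep a
        refine ⟨w, ?_⟩
        change run (actPerm PN.φ (G ⧸ S)) v w = v'
        rw [run_actPerm]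
        change (FreeGroup.lift PN.φ (Quot.mk _ w))⁻¹ • v = v'
        rw [ha, inv_inv]
        exact hg
      relN := fun r hr => Or.inl (Or.inl ⟨r, hr, rfl⟩)
      square := fun s t => Or.inl (Or.inr ⟨(s, t), rfl⟩)
      relQ := fun r hr => Or.inr ⟨r, hr, rfl⟩ }
  have hSQ : (S.map (QuotientGroup.mk' N)).FG := subgroup_fg_map hS _
  have hcore := E.core
    (by
      intro w w'
      obtain ⟨g, hg⟩ := MulAction.exists_smul_eq (G ⧸ N) w w'
      obtain ⟨a, ha⟩ := PQ.surj g⁻¹
      obtain ⟨b, rfl⟩ := Quot.exists_rep a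
      refine ⟨b, ?_⟩
      change run (actPerm PQ.φ ((G ⧸ N) ⧸ S.map (QuotientGroup.mk' N))) w b = w'
      rw [run_actPerm]
      change (FreeGroup.lift PQ.φ (Quot.mk _ b))⁻¹ • w = w'
      rw [ha, inv_inv, hg])
    (fun C hC v hv => fgat_of_stabilizer PN (G ⧸ S) C hC v hv
      (hN.all PN _ (stabilizer_fg N hfgip S hS v)))
    (fun D hD w hw => (fg_iff_fgat ⟨w, hw⟩).1 (hQ.all PQ _ hSQ D hD ⟨w, hw⟩))
  intro C hC v
  rw [fg_iff_fgat]
  exact indep φ R hR hRfin hsurj P.φ P.R P.lift_rel P.surj P.ker.le (G ⧸ S) hcore C hC v.1 v.2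

end Pool.Agent.LT
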