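import Pool.Agent.LT.Ext

set_option autoImplicit false

namespace Pool.Agent.LT

namespace ExtData

variable {X Y V W : Type*} (E : ExtData X Y V W) {D : Set W} {C : Set V}

lemma anchor_gen (hCD : C ⊆ E.p ⁻¹' D) (a : W → V) (ha : ∀ w, E.p (a w) = w)
    (c : W → Word Y → Word X)
    (hc : ∀ w b, run E.KN.perm (run E.KA.perm (a w) (emb Sum.inr b)) (c w b) =
      a (run E.KQ.perm w b))
    (M : Set (W × Word Y)) {w : W} {b : Word Y} (h : InGen E.KQ D M w b) :
    ∃ n : Word X, run E.KA.perm (a w) (emb Sum.inr b ++ emb Sum.inl n) = a (run E.KQ.perm w b) ∧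
      InGen E.KA C ((fun m : W × Word Y => (a m.1, emb Sum.inr m.2 ++ emb Sum.inl (c m.1 m.2))) '' M)
        (a w) (emb Sum.inr b ++ emb Sum.inl n) := by
  induction h with
  | nil w hw =>
    refine ⟨[], rfl, InGen.nil _ ?_⟩
    intro h
    have := hCD h
    rw [Set.mem_preimage, ha] at this
    exact hw this
  | mem w b hm hA =>
    refine ⟨c w b, ?_, InGen.mem _ _ ⟨(w, b), hm, rfl⟩ ?_⟩
    · rw [run_append, run_inl, hc]
    · have h1 : Avoid E.KA (E.p ⁻¹' D) (a w) (emb Sum.inr b) := E.avoid_inr (by rw [ha]; exact hA)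
      refine Avoid.mono hCD (h1.append ?_)
      rw [avoid_inl]
      exact E.avoid_inl_fibre h1.fin _
  | append w b₁ b₂ h₁ h₂ ih₁ ih₂ =>
    obtain ⟨n₁, r₁, g₁⟩ := ih₁
    obtain ⟨n₂, r₂, g₂⟩ := ih₂
    have A1 := h₁.avoid
    have A2 := h₂.avoid
    have hv1 : E.p (run E.KA.perm (a w) (emb Sum.inr b₁)) = run E.KQ.perm w b₁ := by
      rw [p_run_inr, ha]
    obtain ⟨n', hn'⟩ := E.commute_word (D := D) b₂ n₁
      (u := run E.KA.perm (a w) (emb Sum.inr b₁)) (by rw [hv1]; exact A2)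
    have B1 : Avoid E.KA (E.p ⁻¹' D) (a w) (emb Sum.inr b₁) := E.avoid_inr (by rw [ha]; exact A1)
    -- homotopy
    have B2 : Avoid E.KA (E.p ⁻¹' D) (run E.KA.perm (a w) (emb Sum.inr b₁))
        (emb Sum.inl n₁ ++ emb Sum.inr b₂) := by
      refine Avoid.append ?_ ?_
      · rw [avoid_inl]; exact E.avoid_inl_fibre B1.fin _
      · apply E.avoid_inr
        rw [run_inl, p_run_inl, hv1]; exact A2
    have h3 : Homot E.KA (E.p ⁻¹' D) (a w)
        (emb Sum.inr b₁ ++ ((emb Sum.inl n₁ ++ emb Sum.inr b₂) ++ emb Sum.inl n₂))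
        (emb Sum.inr b₁ ++ ((emb Sum.inr b₂ ++ emb Sum.inl n') ++ emb Sum.inl n₂)) := by
      refine Homot.append_left _ B1 (Homot.append_right hn' _ ?_)
      rw [avoid_inl]
      exact E.avoid_inl_fibre B2.fin _
    have h4 : Homot E.KA C (a w)
        ((emb Sum.inr b₁ ++ emb Sum.inl n₁) ++ (emb Sum.inr b₂ ++ emb Sum.inl n₂))
        (emb Sum.inr (b₁ ++ b₂) ++ emb Sum.inl (n' ++ n₂)) := by
      have := h3.mono hCD
      rw [emb_append, emb_append]
      simpa only [List.append_assoc] using this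
    have g3 := InGen.append _ _ _ g₁ (by rw [r₁]; exact g₂)
    refine ⟨n' ++ n₂, ?_, InGen.homot _ _ _ g3 h4⟩
    rw [← h4.run_eq, run_append, r₁, r₂, run_append]
  | inv w b h ih =>
    obtain ⟨n, r, g⟩ := ih
    have A1 := h.avoid
    have g1 := InGen.inv _ _ g
    rw [r, invRev_append, ← emb_invRev, ← emb_invRev] at g1
    obtain ⟨n', hn'⟩ := E.commute_word (D := D) (FreeGroup.invRev b) (FreeGroup.invRev n)
      (u := a (run E.KQ.perm w b)) (by rw [ha]; exact A1.inv)
    have h4 := hn'.mono hCD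
    refine ⟨n', ?_, InGen.homot _ _ _ g1 h4⟩
    rw [← h4.run_eq, run_invRev, ← r, emb_invRev, emb_invRev, ← invRev_append]
    exact run_invRev _ _ _
  | homot w b b' h h' ih =>
    obtain ⟨n, r, g⟩ := ih
    have A1 := h.avoid
    obtain ⟨m, hm⟩ := E.lift_homot h' (a w) (ha w) A1
    have h4 : Homot E.KA (E.p ⁻¹' D) (a w) (emb Sum.inr b ++ emb Sum.inl n)
        ((emb Sum.inr b' ++ emb Sum.inl m) ++ emb Sum.inl n) := by
      refine Homot.append_right hm _ ?_
      rw [avoid_inl]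
      exact E.avoid_inl_fibre (E.avoid_inr (by rw [ha]; exact A1)).fin _
    rw [List.append_assoc, ← emb_append] at h4
    have h5 := h4.mono hCD
    refine ⟨m ++ n, ?_, InGen.homot _ _ _ g h5⟩
    rw [← h5.run_eq, r, h'.run_eq]

/-- Closed paths in a piece lying over the complement of `D`. -/
lemma piece_gen (hCD : C ⊆ E.p ⁻¹' D) (a : W → V) (ha : ∀ w, E.p (a w) = w)
    (c : W → Word Y → Word X)
    (hc : ∀ w b, run E.KN.perm (run E.KA.perm (a w) (emb Sum.inr b)) (c w b) =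
      a (run E.KQ.perm w b))
    (M : Set (W × Word Y)) (M' : Set (V × Word X)) {w : W} (hw : w ∉ D)
    (hM : ∀ b, Avoid E.KQ D w b → run E.KQ.perm w b = w → InGen E.KQ D M w b)
    (hM' : ∀ n, Avoid E.KN C (a w) n → run E.KN.perm (a w) n = a w → InGen E.KN C M' (a w) n)
    (b : Word (X ⊕ Y)) (hb : Avoid E.KA (E.p ⁻¹' D) (a w) b)
    (hr : run E.KA.perm (a w) b = a w) :
    InGen E.KA C
      (((fun m : W × Word Y => (a m.1, emb Sum.inr m.2 ++ emb Sum.inl (c m.1 m.2))) '' M) ∪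
      ((fun m : V × Word X => (m.1, emb Sum.inl m.2)) '' M')) (a w) b := by
  obtain ⟨n, hn⟩ := E.normal_form b hb
  have hpb : run E.KQ.perm w (prY b) = w := by
    have := E.p_run (a w) b
    rw [hr, ha] at this
    exact this.symm
  have hAb : Avoid E.KQ D w (prY b) := by
    have := E.avoid_prY hb
    rwa [ha] at this
  obtain ⟨n₀, r₀, g₀⟩ := E.anchor_gen hCD a ha c hc M (hM _ hAb hpb)
  rw [hpb] at r₀
  have hB : Avoid E.KA (E.p ⁻¹' D) (a w) (emb Sum.inr (prY b)) :=
    E.avoid_inr (by rw [ha]; exact hAb)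
  -- the fibre loop
  have r₁ : run E.KN.perm (run E.KA.perm (a w) (emb Sum.inr (prY b))) n₀ = a w := by
    rw [run_append, run_inl] at r₀; exact r₀
  have r₂ : run E.KN.perm (run E.KA.perm (a w) (emb Sum.inr (prY b))) n = a w := by
    have := hn.run_eq
    rw [hr, run_append, run_inl] at this
    exact this.symm
  have r₃ : run E.KN.perm (a w) (FreeGroup.invRev n₀ ++ n) = a w := by
    have h1 := run_invRev E.KN.perm n₀ (run E.KA.perm (a w) (emb Sum.inr (prY b)))
    rw [r₁] at h1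
    rw [run_append, h1, r₂]
  have hfib : Avoid E.KN C (a w) (FreeGroup.invRev n₀ ++ n) :=
    Avoid.mono hCD (E.avoid_inl_fibre (by rw [ha]; exact hw) _)
  have g₁ := hM' _ hfib r₃
  have g₂ : InGen E.KA C ((fun m : V × Word X => (m.1, emb Sum.inl m.2)) '' M') (a w)
      (emb Sum.inl (FreeGroup.invRev n₀ ++ n)) := by
    have := inGen_tr (K₁ := E.KN) (K₂ := E.KA) (C := C) (C' := C)
      (τ := fun x => [(Sum.inl x, true)]) (fun x v => by simpa [run, step] using E.perm_inl x v)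
      subset_rfl (fun u hu x hx => ⟨hu, by simpa [step, Avoid, E.perm_inl] using hx⟩)
      (fun u r hr hA => by
        rw [tr_eq_emb]
        exact Homot.of_cell (E.relN r hr) ((E.avoid_inl).2 hA)) g₁
    simpa only [tr_eq_emb] using this
  have g₃ := InGen.append _ _ _ (g₀.mono (Set.subset_union_left (t :=
      ((fun m : V × Word X => (m.1, emb Sum.inl m.2)) '' M'))))
    (by rw [r₀]; exact g₂.mono Set.subset_union_right)
  refine InGen.homot _ _ _ g₃ ?_
  -- (b n₀)(n₀⁻¹ n) ~ b n ~ w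
  have hA0 : Avoid E.KA (E.p ⁻¹' D) (run E.KA.perm (a w) (emb Sum.inr (prY b)))
      (emb Sum.inl n₀) := by
    rw [avoid_inl]; exact E.avoid_inl_fibre hB.fin _
  have h5 : Homot E.KA (E.p ⁻¹' D) (run E.KA.perm (a w) (emb Sum.inr (prY b)))
      ((emb Sum.inl n₀ ++ FreeGroup.invRev (emb Sum.inl n₀)) ++ emb Sum.inl n)
      ([] ++ emb Sum.inl n) := by
    refine Homot.append_right (Homot.inv_cancel hA0) _ ?_
    rw [run_append, run_invRev, avoid_inl]
    exact E.avoid_inl_fibre hB.fin _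
  have h6 := Homot.append_left _ hB h5
  have h7 : Homot E.KA (E.p ⁻¹' D) (a w)
      ((emb Sum.inr (prY b) ++ emb Sum.inl n₀) ++ emb Sum.inl (FreeGroup.invRev n₀ ++ n)) b := by
    refine Homot.trans ?_ hn.symm
    rw [emb_append, emb_invRev]
    simpa only [List.append_assoc, List.nil_append] using h6
  exact h7.mono hCD

end ExtData

end Pool.Agent.LT
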