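import Pool.Agent.LT.Indep
import Pool.Agent.LT.Defs

set_option autoImplicit false

namespace Pool.Agent.LT

universe u

/-! ### Null-homotopies use finitely many vertices -/

section

variable {X : Type*}

/-- The one-vertex complex. -/
def oneComplex (R : Set (Word X)) : LabComplex X Unit where
  perm := fun _ => 1
  rel := R
  closed _ _ _ := rfl

lemma avoid_empty {V : Type*} (K : LabComplex X V) (v : V) (w : Word X) : Avoid K ∅ v w := by
  induction w generalizing v with
  | nil => exact fun h => h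
  | cons l w ih => exact ⟨fun h => h, ih _⟩

lemma homot_of_mk_eq (R : Set (Word X)) (w w' : Word X) (h : FreeGroup.mk w = FreeGroup.mk w') :
    Homot (oneComplex R) ∅ () w w' := by
  have key : ∀ a b : Word X, FreeGroup.Red a b → Homot (oneComplex R) ∅ () a b := by
    intro a b hab
    induction hab with
    | refl => exact Homot.refl _ _
    | tail _ hs ih =>
      refine ih.trans ?_
      cases hs with
      | not => exact Relation.EqvGen.rel _ _ (HStep.cancel _ _ _ _ (avoid_empty _ _ _))
  obtain ⟨c, h1, h2⟩ := FreeGroup.Red.exact.1 h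
  exact (key _ _ h1).trans (key _ _ h2).symm

lemma homot_nil_of_mem (R : Set (Word X)) (g : FreeGroup X)
    (hg : g ∈ Subgroup.normalClosure (FreeGroup.mk '' R)) :
    ∀ w : Word X, FreeGroup.mk w = g → Homot (oneComplex R) ∅ () w [] := by
  unfold Subgroup.normalClosure at hg
  induction hg using Subgroup.closure_induction with
  | mem g hg =>
    intro w hw
    obtain ⟨a, ⟨r, hr, rfl⟩, hconj⟩ := Group.mem_conjugatesOfSet_iff.1 hg
    obtain ⟨c, hc⟩ := isConj_iff.1 hconj
    obtain ⟨c', rfl⟩ := Quot.exists_rep c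
    have e1 : FreeGroup.mk w = FreeGroup.mk (c' ++ (r ++ FreeGroup.invRev c')) := by
      rw [hw, ← hc]
      change FreeGroup.mk c' * FreeGroup.mk r * (FreeGroup.mk c')⁻¹ = _
      rw [FreeGroup.inv_mk, FreeGroup.mul_mk, FreeGroup.mul_mk, List.append_assoc]
    refine (homot_of_mk_eq R _ _ e1).trans ?_
    have h2 : Homot (oneComplex R) ∅ () (c' ++ (r ++ FreeGroup.invRev c'))
        (c' ++ ([] ++ FreeGroup.invRev c')) := by
      refine Homot.append_left _ (avoid_empty _ _ _) ?_
      refine Homot.append_right ?_ _ (avoid_empty _ _ _)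
      exact Homot.of_cell hr (avoid_empty _ _ _)
    exact h2.trans (Homot.inv_cancel (avoid_empty _ _ _))
  | one =>
    intro w hw
    exact homot_of_mk_eq R w [] hw
  | mul x y _ _ ihx ihy =>
    intro w hw
    obtain ⟨x', rfl⟩ := Quot.exists_rep x
    obtain ⟨y', rfl⟩ := Quot.exists_rep y
    have hx := ihx x' rfl
    have hy := ihy y' rfl
    have e1 : FreeGroup.mk w = FreeGroup.mk (x' ++ y') := by
      rw [hw]; exact FreeGroup.mul_mk
    refine (homot_of_mk_eq R _ _ e1).trans ?_
    exact Homot.append hx hy (avoid_empty _ _ _) (avoid_empty _ _ _)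
  | inv x _ ihx =>
    intro w hw
    obtain ⟨x', rfl⟩ := Quot.exists_rep x
    have hx := ihx x' rfl
    have e1 : FreeGroup.mk w = FreeGroup.mk (FreeGroup.invRev x') := by
      rw [hw]; exact FreeGroup.inv_mk
    refine (homot_of_mk_eq R _ _ e1).trans ?_
    exact Homot.inv hx (avoid_empty _ _ _)

lemma finite_pre (w : Word X) : {p : Word X | p <+: w}.Finite := by
  have : {p : Word X | p <+: w} = {p | p ∈ w.inits} := by
    ext p; simp
  rw [this]
  exact List.finite_toSet _

lemma homot_finite_support (R : Set (Word X)) (w w' : Word X)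
    (h : Homot (oneComplex R) ∅ () w w') :
    ∃ Φ : Set (Word X), Φ.Finite ∧ ∀ (V : Type u) (K : LabComplex X V), K.rel = R →
      ∀ (C : Set V) (v : V), (∀ p ∈ Φ, run K.perm v p ∉ C) → Homot K C v w w' := by
  induction h with
  | rel a b hab =>
    cases hab with
    | cancel w₁ w₂ x b h =>
      refine ⟨{p | p <+: w₁ ++ (x, b) :: (x, !b) :: w₂}, finite_pre _, ?_⟩
      intro V K hK C v hv
      exact Relation.EqvGen.rel _ _ (HStep.cancel _ _ _ _ ((avoid_iff _ _).2 hv))
    | cell w₁ w₂ r hr h =>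
      refine ⟨{p | p <+: w₁ ++ (r ++ w₂)}, finite_pre _, ?_⟩
      intro V K hK C v hv
      exact Relation.EqvGen.rel _ _ (HStep.cell _ _ _ (by rw [hK]; exact hr)
        ((avoid_iff _ _).2 hv))
  | refl => exact ⟨∅, Set.finite_empty, fun _ _ _ _ _ _ => Homot.refl _ _⟩
  | symm _ _ _ ih =>
    obtain ⟨Φ, h1, h2⟩ := ih
    exact ⟨Φ, h1, fun V K hK C v hv => (h2 V K hK C v hv).symm⟩
  | trans _ _ _ _ _ ih1 ih2 =>
    obtain ⟨Φ, h1, h2⟩ := ih1
    obtain ⟨Φ', h1', h2'⟩ := ih2
    exact ⟨Φ ∪ Φ', h1.union h1', fun V K hK C v hv =>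
      (h2 V K hK C v fun p hp => hv p (Or.inl hp)).trans
      (h2' V K hK C v fun p hp => hv p (Or.inr hp))⟩

lemma homot_of_lift_eq {G : Type*} [Group G] {φ : X → G} {R : Set (Word X)}
    (hker : (FreeGroup.lift φ).ker ≤ Subgroup.normalClosure (FreeGroup.mk '' R))
    (w w' : Word X)
    (h : FreeGroup.lift φ (FreeGroup.mk w) = FreeGroup.lift φ (FreeGroup.mk w')) :
    Homot (oneComplex R) ∅ () w w' := by
  have h1 : FreeGroup.mk (w ++ FreeGroup.invRev w') ∈
      Subgroup.normalClosure (FreeGroup.mk '' R) := by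
    apply hker
    rw [MonoidHom.mem_ker, ← FreeGroup.mul_mk, ← FreeGroup.inv_mk, map_mul, map_inv, h,
      mul_inv_cancel]
  have h2 := homot_nil_of_mem R _ h1 _ rfl
  have h3 : Homot (oneComplex R) ∅ () ((w ++ FreeGroup.invRev w') ++ w') ([] ++ w') :=
    Homot.append_right h2 _ (avoid_empty _ _ _)
  have h5 : Homot (oneComplex R) ∅ () (FreeGroup.invRev w' ++ w') [] :=
    Homot.cancel_inv (K := oneComplex R) (avoid_empty (oneComplex R) () w')
  have h4 : Homot (oneComplex R) ∅ () (w ++ (FreeGroup.invRev w' ++ w')) (w ++ []) :=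
    Homot.append_left _ (avoid_empty _ _ _) h5
  rw [List.append_nil] at h4
  rw [List.append_assoc, List.nil_append] at h3
  exact h4.symm.trans h3

end

end Pool.Agent.LT
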