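import Pool.Agent.LT.Gen

set_option autoImplicit false

namespace Pool.Agent.LT

variable {X₁ X₂ V : Type*}

/-- Translation of a letter. -/
def trL (τ : X₁ → Word X₂) (l : X₁ × Bool) : Word X₂ :=
  if l.2 then τ l.1 else FreeGroup.invRev (τ l.1)

/-- Translation of a word. -/
def tr (τ : X₁ → Word X₂) (w : Word X₁) : Word X₂ := w.flatMap (trL τ)

lemma tr_nil (τ : X₁ → Word X₂) : tr τ [] = [] := rfl

lemma tr_cons (τ : X₁ → Word X₂) (l : X₁ × Bool) (w : Word X₁) :
    tr τ (l :: w) = trL τ l ++ tr τ w := by simp [tr]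

lemma tr_append (τ : X₁ → Word X₂) (w₁ w₂ : Word X₁) :
    tr τ (w₁ ++ w₂) = tr τ w₁ ++ tr τ w₂ := by simp [tr]

lemma trL_inv (τ : X₁ → Word X₂) (x : X₁) (b : Bool) :
    trL τ (x, !b) = FreeGroup.invRev (trL τ (x, b)) := by
  cases b <;> simp [trL]

lemma tr_invRev (τ : X₁ → Word X₂) (w : Word X₁) :
    tr τ (FreeGroup.invRev w) = FreeGroup.invRev (tr τ w) := by
  induction w with
  | nil => rfl
  | cons l w ih =>
    rw [invRev_cons, tr_append, ih, tr_cons, tr_cons, tr_nil, List.append_nil, invRev_append,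
      trL_inv τ l.1 l.2]

variable {K₁ : LabComplex X₁ V} {K₂ : LabComplex X₂ V} {τ : X₁ → Word X₂} {C C' : Set V}

lemma run_trL (hτ : ∀ x v, run K₂.perm v (τ x) = K₁.perm x v) (v : V) (l : X₁ × Bool) :
    run K₂.perm v (trL τ l) = step K₁.perm v l := by
  obtain ⟨x, b⟩ := l
  cases b with
  | true => simpa [trL, step] using hτ x v
  | false =>
    have h := run_invRev K₂.perm (τ x) ((K₁.perm x).symm v)
    rw [hτ] at h
    simpa [trL, step] using h

lemma run_tr (hτ : ∀ x v, run K₂.perm v (τ x) = K₁.perm x v) (v : V) (w : Word X₁) :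
    run K₂.perm v (tr τ w) = run K₁.perm v w := by
  induction w generalizing v with
  | nil => rfl
  | cons l w ih => rw [tr_cons, run_append, run_trL hτ, ih, run_cons]

lemma avoid_trL (hτ : ∀ x v, run K₂.perm v (τ x) = K₁.perm x v)
    (h1 : ∀ u ∉ C', ∀ x, K₁.perm x u ∉ C' → Avoid K₂ C u (τ x)) {u : V} {l : X₁ × Bool}
    (hu : u ∉ C') (hl : step K₁.perm u l ∉ C') : Avoid K₂ C u (trL τ l) := by
  obtain ⟨x, b⟩ := l
  cases b with
  | true =>
    simp only [step, if_true] at hl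
    simpa [trL] using h1 u hu x hl
  | false =>
    simp only [step, Bool.false_eq_true, if_false] at hl
    have h2 := (h1 _ hl x (by simpa using hu)).inv
    rw [hτ] at h2
    simpa [trL] using h2

lemma avoid_tr (hτ : ∀ x v, run K₂.perm v (τ x) = K₁.perm x v) (hC : C ⊆ C')
    (h1 : ∀ u ∉ C', ∀ x, K₁.perm x u ∉ C' → Avoid K₂ C u (τ x)) {u : V} {w : Word X₁}
    (h : Avoid K₁ C' u w) : Avoid K₂ C u (tr τ w) := by
  induction w generalizing u with
  | nil => exact fun hu => h (hC hu)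
  | cons l w ih =>
    rw [tr_cons]
    refine (avoid_trL hτ h1 h.1 h.2.start).append ?_
    rw [run_trL hτ]
    exact ih h.2

lemma homot_tr (hτ : ∀ x v, run K₂.perm v (τ x) = K₁.perm x v) (hC : C ⊆ C')
    (h1 : ∀ u ∉ C', ∀ x, K₁.perm x u ∉ C' → Avoid K₂ C u (τ x))
    (h2 : ∀ u, ∀ r ∈ K₁.rel, Avoid K₁ C' u r → Homot K₂ C u (tr τ r) [])
    {u : V} {w w' : Word X₁} (h : Homot K₁ C' u w w') : Homot K₂ C u (tr τ w) (tr τ w') := by
  induction h with
  | rel a b hab =>
    cases hab with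
    | cancel w₁ w₂ x b h =>
      have ha := avoid_tr hτ hC h1 h
      have hb : Avoid K₂ C (run K₂.perm u (tr τ w₁)) (trL τ (x, b)) := by
        rw [run_tr hτ]
        exact avoid_trL hτ h1 h.right.1 h.right.2.1
      rw [tr_append, tr_cons, tr_cons, trL_inv, tr_append, ← List.append_assoc (trL τ (x, b))]
      refine Homot.append_left _ (avoid_tr hτ hC h1 h.left) ?_
      refine Homot.append_right (Homot.inv_cancel hb) (tr τ w₂) ?_
      have e : run K₂.perm (run K₂.perm u (tr τ w₁)) (trL τ (x, b) ++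
          FreeGroup.invRev (trL τ (x, b))) = run K₁.perm u w₁ := by
        rw [run_append, run_invRev, run_tr hτ]
      rw [e]
      refine avoid_tr hτ hC h1 ?_
      have := h.right.2.2
      rwa [step_step_inv] at this
    | cell w₁ w₂ r hr h =>
      rw [tr_append, tr_append, tr_append]
      refine Homot.append_left _ (avoid_tr hτ hC h1 h.left) ?_
      rw [run_tr hτ]
      refine Homot.append_right (h2 _ r hr h.right.left) (tr τ w₂) ?_
      rw [run_tr hτ]
      exact avoid_tr hτ hC h1 h.right.right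
  | refl => exact Homot.refl _ _
  | symm _ _ _ ih => exact ih.symm
  | trans _ _ _ _ _ ih1 ih2 => exact ih1.trans ih2

lemma inGen_tr (hτ : ∀ x v, run K₂.perm v (τ x) = K₁.perm x v) (hC : C ⊆ C')
    (h1 : ∀ u ∉ C', ∀ x, K₁.perm x u ∉ C' → Avoid K₂ C u (τ x))
    (h2 : ∀ u, ∀ r ∈ K₁.rel, Avoid K₁ C' u r → Homot K₂ C u (tr τ r) [])
    {M : Set (V × Word X₁)} {u : V} {w : Word X₁} (h : InGen K₁ C' M u w) :
    InGen K₂ C ((fun m : V × Word X₁ => (m.1, tr τ m.2)) '' M) u (tr τ w) := by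
  induction h with
  | nil u hu => exact InGen.nil _ (fun h => hu (hC h))
  | mem u w h ha => exact InGen.mem _ _ ⟨(u, w), h, rfl⟩ (avoid_tr hτ hC h1 ha)
  | append u w₁ w₂ _ _ ih₁ ih₂ =>
    rw [tr_append]
    refine InGen.append _ _ _ ih₁ ?_
    rw [run_tr hτ]
    exact ih₂
  | inv u w _ ih =>
    have := InGen.inv _ _ ih
    rw [tr_invRev]
    rwa [run_tr hτ] at this
  | homot u w w' _ h' ih => exact InGen.homot _ _ _ ih (homot_tr hτ hC h1 h2 h')

end Pool.Agent.LT
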